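import Pool.Agent.Helper64.SB.Oracle

/-!
Total functions computable relative to a total oracle; the search principle.
-/

namespace Pool.Agent.Helper64.SB

open Nat.Partrec (Code)
open Encodable

/-- The total function `f` is computable relative to the total function `g`. -/
def RecIn (g f : ℕ → ℕ) : Prop := Nat.RecursiveIn {(g : ℕ →. ℕ)} (f : ℕ →. ℕ)

namespace RecIn

variable {g f h : ℕ → ℕ}

theorem of_computable (hf : Computable f) : RecIn g f :=
  Nat.Partrec.recursiveIn (Partrec.nat_iff.mp hf)

theorem refl (g : ℕ → ℕ) : RecIn g g := Nat.RecursiveIn.oracle _ rfl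

theorem trans (hf : RecIn g f) (hh : RecIn f h) : RecIn g h :=
  Nat.RecursiveIn.subst hh (fun k hk => by rw [Set.mem_singleton_iff] at hk; subst hk; exact hf)

theorem of_eq (hf : RecIn g f) (H : ∀ n, f n = h n) : RecIn g h := (funext H : f = h) ▸ hf

theorem comp (hf : RecIn g f) (hh : RecIn g h) : RecIn g (fun n => f (h n)) := by
  refine (Nat.RecursiveIn.comp hf hh).of_eq fun n => ?_
  exact Part.bind_some _ _

theorem pair (hf : RecIn g f) (hh : RecIn g h) : RecIn g (fun n => Nat.pair (f n) (h n)) := by
  refine (Nat.RecursiveIn.pair hf hh).of_eq fun n => ?_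
  simp [Seq.seq]

theorem comp₂ {F : ℕ → ℕ → ℕ} (hF : Computable₂ F) (hf : RecIn g f) (hh : RecIn g h) :
    RecIn g (fun n => F (f n) (h n)) := by
  have h1 : RecIn g (fun n => F n.unpair.1 n.unpair.2) :=
    of_computable (hF.comp (Computable.fst.comp Computable.unpair)
      (Computable.snd.comp Computable.unpair))
  refine (h1.comp (hf.pair hh)).of_eq fun n => ?_
  simp

theorem prec (hf : RecIn g f) (hh : RecIn g h) :
    RecIn g (fun p => Nat.rec (f p.unpair.1) (fun y i => h (Nat.pair p.unpair.1 (Nat.pair y i)))
      p.unpair.2) := by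
  refine (Nat.RecursiveIn.prec hf hh).of_eq fun p => ?_
  have key : ∀ (a n : ℕ), (n.rec ((f : ℕ →. ℕ) a) (fun y IH => do
      let i ← IH
      (h : ℕ →. ℕ) (Nat.pair a (Nat.pair y i))) : Part ℕ) =
      Part.some (Nat.rec (f a) (fun y i => h (Nat.pair a (Nat.pair y i))) n) := by
    intro a n
    induction n with
    | zero => rfl
    | succ n ih =>
      simp only [ih]
      exact Part.bind_some _ _
  exact key _ _

theorem find {p : ℕ → ℕ} (hp : RecIn g p) (hex : ∀ a, ∃ n, p (Nat.pair a n) = 0) :
    ∃ h : ℕ → ℕ, RecIn g h ∧ ∀ a, p (Nat.pair a (h a)) = 0 := by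
  classical
  refine ⟨fun a => Nat.find (hex a), ?_, fun a => Nat.find_spec (hex a)⟩
  refine (Nat.RecursiveIn.rfind hp).of_eq fun a => ?_
  apply Part.eq_some_iff.mpr
  refine Nat.mem_rfind.mpr ⟨?_, ?_⟩
  · simpa using Nat.find_spec (hex a)
  · intro m hm
    simpa using Nat.find_min (hex a) hm

end RecIn

theorem recIn_ini (g : ℕ → ℕ) : RecIn g (fun k => encode (ini g k)) := by
  have hcat : Computable₂ (fun (i v : ℕ) => encode (((decode (α := List ℕ) i).getD []) ++ [v])) := by
    refine Computable.encode.comp (Primrec.list_append.to_comp.comp ?_ ?_)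
    · exact Computable.option_getD (Computable.decode.comp Computable.fst) (Computable.const [])
    · exact (Primrec.list_cons.to_comp.comp Computable.snd (Computable.const []))
  have h1 : RecIn g (fun x => encode (((decode (α := List ℕ) x.unpair.2.unpair.2).getD []) ++
      [g x.unpair.2.unpair.1])) := by
    refine RecIn.comp₂ hcat ?_ ?_
    · exact RecIn.of_computable ((Computable.snd.comp Computable.unpair).comp
        (Computable.snd.comp Computable.unpair))
    · exact (RecIn.refl g).comp (RecIn.of_computable ((Computable.fst.comp Computable.unpair).comp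
        (Computable.snd.comp Computable.unpair)))
  have h2 := RecIn.prec (g := g) (f := fun _ => encode ([] : List ℕ))
    (RecIn.of_computable (Computable.const _)) h1
  have h3 := h2.comp (h := fun k => Nat.pair 0 k)
    (RecIn.of_computable (Primrec₂.natPair.comp (Primrec.const 0) Primrec.id).to_comp)
  refine h3.of_eq fun k => ?_
  simp only [Nat.unpair_pair]
  induction k with
  | zero => rfl
  | succ k ih =>
    simp only [ih]
    simp [ini_succ]

/-- Search principle. -/
theorem search {g : ℕ → ℕ} {P : List ℕ → ℕ → ℕ → Bool}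
    (hP : Computable fun x : List ℕ × ℕ × ℕ => P x.1 x.2.1 x.2.2)
    (hex : ∀ m, ∃ k w, P (ini g k) m w = true) :
    ∃ h : ℕ → ℕ, RecIn g h ∧ ∀ m, ∃ k, P (ini g k) m (h m) = true := by
  have hQ : Computable₂ (fun (e x : ℕ) => cond (P ((decode (α := List ℕ) e).getD [])
      x.unpair.1 x.unpair.2) 0 1) := by
    refine Computable.cond (hP.comp (Computable.pair ?_ (Computable.pair ?_ ?_)))
      (Computable.const _) (Computable.const _)
    · exact Computable.option_getD (Computable.decode.comp Computable.fst) (Computable.const [])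
    · exact (Computable.fst.comp Computable.unpair).comp Computable.snd
    · exact (Computable.snd.comp Computable.unpair).comp Computable.snd
  have h1 : RecIn g (fun z => cond (P ((decode (α := List ℕ)
      (encode (ini g z.unpair.2.unpair.1))).getD [])
      (Nat.pair z.unpair.1 z.unpair.2.unpair.2).unpair.1
      (Nat.pair z.unpair.1 z.unpair.2.unpair.2).unpair.2) 0 1) := by
    refine RecIn.comp₂ hQ (f := fun z => encode (ini g z.unpair.2.unpair.1))
      (h := fun z => Nat.pair z.unpair.1 z.unpair.2.unpair.2) ?_ ?_
    · exact (recIn_ini g).comp (RecIn.of_computable ((Computable.fst.comp Computable.unpair).comp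
        (Computable.snd.comp Computable.unpair)))
    · exact RecIn.of_computable (Primrec₂.natPair.to_comp.comp
        (Computable.fst.comp Computable.unpair) ((Computable.snd.comp Computable.unpair).comp
        (Computable.snd.comp Computable.unpair)))
  obtain ⟨h, hh, hs⟩ := h1.find (by
    intro a
    obtain ⟨k, w, hkw⟩ := hex a
    refine ⟨Nat.pair k w, ?_⟩
    simp [hkw])
  refine ⟨fun m => (h m).unpair.2, ?_, ?_⟩
  · exact (RecIn.of_computable (Computable.snd.comp Computable.unpair)).comp hh
  · intro m
    have := hs m
    refine ⟨(h m).unpair.1, ?_⟩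
    simp only [Nat.unpair_pair, encodek, Option.getD_some] at this
    cases hP' : P (ini g (h m).unpair.1) m (h m).unpair.2
    · rw [hP'] at this
      simp at this
    · rfl

end Pool.Agent.Helper64.SB
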