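import Pool.Agent.Helper64.SB.Good

/-!
Recursively enumerable relations: closure properties; the search principle for such relations.
-/

namespace Pool.Agent.Helper64.SB

open Nat.Partrec (Code)
open Encodable

variable {α β γ : Type} [Primcodable α] [Primcodable β] [Primcodable γ]

/-- A relation with a computable matrix. -/
def RE (p : α → Prop) : Prop := ∃ q : α → ℕ → Bool, Computable₂ q ∧ ∀ a, p a ↔ ∃ n, q a n = true

namespace RE

theorem of_eq {p p' : α → Prop} (hp : RE p) (H : ∀ a, p a ↔ p' a) : RE p' :=
  (funext fun a => propext (H a) : p = p') ▸ hp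

theorem of_bool {f : α → Bool} (hf : Computable f) : RE (fun a => f a = true) :=
  ⟨fun a _ => f a, hf.comp Computable.fst, fun a => by simp⟩

theorem of_dec {p : α → Prop} [DecidablePred p] (hf : Computable (fun a => decide (p a))) :
    RE p := (of_bool hf).of_eq fun a => by simp

theorem of_primrecPred {p : α → Prop} (hp : PrimrecPred p) : RE p := by
  obtain ⟨_, hp⟩ := hp
  exact of_dec hp.to_comp

theorem comp {p : β → Prop} (hp : RE p) {f : α → β} (hf : Computable f) :
    RE (fun a => p (f a)) := by
  obtain ⟨q, hq, h⟩ := hp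
  exact ⟨fun a n => q (f a) n, hq.comp (hf.comp Computable.fst) Computable.snd, fun a => h (f a)⟩

theorem and {p p' : α → Prop} (hp : RE p) (hp' : RE p') : RE (fun a => p a ∧ p' a) := by
  obtain ⟨q, hq, h⟩ := hp
  obtain ⟨q', hq', h'⟩ := hp'
  refine ⟨fun a n => q a n.unpair.1 && q' a n.unpair.2, ?_, fun a => ?_⟩
  · exact Primrec.and.to_comp.comp
      (hq.comp Computable.fst ((Computable.fst.comp Computable.unpair).comp Computable.snd))
      (hq'.comp Computable.fst ((Computable.snd.comp Computable.unpair).comp Computable.snd))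
  · show (p a ∧ p' a) ↔ ∃ n : ℕ, (q a n.unpair.1 && q' a n.unpair.2) = true
    rw [h, h']
    constructor
    · rintro ⟨⟨n, hn⟩, ⟨m, hm⟩⟩
      exact ⟨Nat.pair n m, by simp [hn, hm]⟩
    · rintro ⟨n, hn⟩
      simp only [Bool.and_eq_true] at hn
      exact ⟨⟨_, hn.1⟩, ⟨_, hn.2⟩⟩

theorem or {p p' : α → Prop} (hp : RE p) (hp' : RE p') : RE (fun a => p a ∨ p' a) := by
  obtain ⟨q, hq, h⟩ := hp
  obtain ⟨q', hq', h'⟩ := hp'
  refine ⟨fun a n => q a n || q' a n, ?_, fun a => ?_⟩
  · exact Primrec.or.to_comp.comp hq hq'
  · show (p a ∨ p' a) ↔ ∃ n, (q a n || q' a n) = true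
    rw [h, h']
    constructor
    · rintro (⟨n, hn⟩ | ⟨n, hn⟩)
      · exact ⟨n, by simp [hn]⟩
      · exact ⟨n, by simp [hn]⟩
    · rintro ⟨n, hn⟩
      rw [Bool.or_eq_true] at hn
      exact hn.imp (fun h => ⟨_, h⟩) (fun h => ⟨_, h⟩)

theorem ex {p : α → β → Prop} (hp : RE (fun x : α × β => p x.1 x.2)) :
    RE (fun a => ∃ b, p a b) := by
  obtain ⟨q, hq, h⟩ := hp
  refine ⟨fun a n => ((decode (α := β) n.unpair.1).map (fun b => q (a, b) n.unpair.2)).getD false,
    ?_, fun a => ?_⟩
  · refine Computable.option_getD (Computable.option_map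
      (Computable.decode.comp ((Computable.fst.comp Computable.unpair).comp Computable.snd)) ?_)
      (Computable.const false)
    exact hq.comp (Computable.pair (Computable.fst.comp Computable.fst) Computable.snd)
      ((Computable.snd.comp Computable.unpair).comp (Computable.snd.comp Computable.fst))
  · constructor
    · rintro ⟨b, hb⟩
      obtain ⟨n, hn⟩ := (h (a, b)).mp hb
      exact ⟨Nat.pair (encode b) n, by simp [hn]⟩
    · rintro ⟨n, hn⟩
      simp only at hn
      cases hd : decode (α := β) n.unpair.1 with
      | none => rw [hd] at hn; simp at hn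
      | some b =>
        rw [hd] at hn
        simp only [Option.map_some, Option.getD_some] at hn
        exact ⟨b, (h (a, b)).mpr ⟨_, hn⟩⟩

theorem eq {f g : α → β} (hf : Computable f) (hg : Computable g) : RE (fun a => f a = g a) := by
  refine (of_bool (f := fun y : α => decide (encode (f y) = encode (g y))) ?_).of_eq fun x => ?_
  · exact (Primrec.eq (α := ℕ)).decide.to_comp.comp (Computable.encode.comp hf)
      (Computable.encode.comp hg)
  · simp only [decide_eq_true_eq]
    exact Encodable.encode_inj

theorem ne {f g : α → β} (hf : Computable f) (hg : Computable g) : RE (fun a => f a ≠ g a) := by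
  refine (of_bool (f := fun y : α => !decide (encode (f y) = encode (g y))) ?_).of_eq fun x => ?_
  · exact Primrec.not.to_comp.comp ((Primrec.eq (α := ℕ)).decide.to_comp.comp
      (Computable.encode.comp hf) (Computable.encode.comp hg))
  · simp only [Bool.not_eq_true', decide_eq_false_iff_not]
    exact not_congr Encodable.encode_inj

/-- Bounded conjunction. -/
theorem forall_lt {p : α → ℕ → Prop} (hp : RE (fun x : α × ℕ => p x.1 x.2)) {f : α → ℕ}
    (hf : Computable f) : RE (fun a => ∀ i < f a, p a i) := by
  obtain ⟨q, hq, h⟩ := hp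
  -- `w` is a list of witnesses
  have h1 : RE (fun x : α × List ℕ => ∀ i < f x.1, q (x.1, i) (x.2.getD i 0) = true) := by
    have hb : Computable (fun x : α × List ℕ => (Nat.rec (motive := fun _ => Bool) true
        (fun i b => b && q (x.1, i) (x.2.getD i 0)) (f x.1) : Bool)) := by
      refine Computable.nat_rec (f := fun x : α × List ℕ => f x.1) (g := fun _ => true)
        (h := fun (x : α × List ℕ) (y : ℕ × Bool) => y.2 && q (x.1, y.1) (x.2.getD y.1 0))
        (hf.comp Computable.fst) (Computable.const true) ?_
      refine Primrec.and.to_comp.comp (Computable.snd.comp Computable.snd) ?_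
      refine hq.comp (Computable.pair (Computable.fst.comp Computable.fst)
        (Computable.fst.comp Computable.snd)) ?_
      exact (Primrec.list_getD 0).to_comp.comp (Computable.snd.comp Computable.fst)
        (Computable.fst.comp Computable.snd)
    refine (of_bool hb).of_eq fun x => ?_
    generalize f x.1 = k
    induction k with
    | zero => simp
    | succ k ih =>
      simp only [Bool.and_eq_true, ih]
      constructor
      · rintro ⟨h1, h2⟩ i hi
        rcases Nat.lt_succ_iff_lt_or_eq.mp hi with hi | rfl
        · exact h1 i hi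
        · exact h2
      · intro h1
        exact ⟨fun i hi => h1 i (by omega), h1 k (by omega)⟩
  refine (ex (p := fun a (w : List ℕ) => ∀ i < f a, q (a, i) (w.getD i 0) = true) h1).of_eq
    fun a => ?_
  constructor
  · rintro ⟨w, hw⟩ i hi
    exact (h (a, i)).mpr ⟨_, hw i hi⟩
  · intro hall
    choose! w hw using fun i hi => (h (a, i)).mp (hall i hi)
    refine ⟨(List.range (f a)).map w, fun i hi => ?_⟩
    rw [List.getD_eq_getElem?_getD, List.getElem?_map, List.getElem?_range hi]
    exact hw i hi

/-- Conjunction over a list. -/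
theorem forall_mem {p : α → β → Prop} (hp : RE (fun x : α × β => p x.1 x.2)) {l : α → List β}
    (hl : Computable l) : RE (fun a => ∀ b ∈ l a, p a b) := by
  have h1 : RE (fun x : α × ℕ => ∃ b, (l x.1)[x.2]? = some b ∧ p x.1 b) := by
    refine ex (p := fun (x : α × ℕ) b => (l x.1)[x.2]? = some b ∧ p x.1 b) ?_
    refine and ?_ (hp.comp (Computable.pair (Computable.fst.comp Computable.fst) Computable.snd))
    classical
    letI : DecidableEq (Option β) := Classical.decEq _
    refine (of_bool (f := fun x : (α × ℕ) × β =>
      decide (encode ((l x.1.1)[x.1.2]?) = encode (some x.2))) ?_).of_eq fun x => ?_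
    · exact (Primrec.eq (α := ℕ)).decide.to_comp.comp
        (Computable.encode.comp (Computable.list_getElem?.comp
          (hl.comp (Computable.fst.comp Computable.fst)) (Computable.snd.comp Computable.fst)))
        (Computable.encode.comp (Computable.option_some.comp Computable.snd))
    · simp only [decide_eq_true_eq]
      exact Encodable.encode_inj
  refine (forall_lt (p := fun a i => ∃ b, (l a)[i]? = some b ∧ p a b) h1
    (Computable.list_length.comp hl)).of_eq fun a => ?_
  constructor
  · intro h b hb
    obtain ⟨i, hi, hib⟩ := List.getElem_of_mem hb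
    obtain ⟨b', hb', hp'⟩ := h i hi
    rw [List.getElem?_eq_getElem hi, hib] at hb'
    cases hb'
    exact hp'
  · intro h i hi
    exact ⟨(l a)[i], List.getElem?_eq_getElem hi, h _ (List.getElem_mem hi)⟩

/-- Disjunction over a list. -/
theorem exists_mem {p : α → β → Prop} (hp : RE (fun x : α × β => p x.1 x.2)) {l : α → List β}
    (hl : Computable l) : RE (fun a => ∃ b ∈ l a, p a b) := by
  have h1 : RE (fun a : α => ∃ b : β, (∃ i : ℕ, (l a)[i]? = some b) ∧ p a b) := by
    refine ex (p := fun (a : α) (b : β) => (∃ i : ℕ, (l a)[i]? = some b) ∧ p a b) (and ?_ hp)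
    refine ex (p := fun (x : α × β) (i : ℕ) => (l x.1)[i]? = some x.2) ?_
    refine (of_bool (f := fun x : (α × β) × ℕ =>
      decide (encode ((l x.1.1)[x.2]?) = encode (some x.1.2))) ?_).of_eq fun x => ?_
    · exact (Primrec.eq (α := ℕ)).decide.to_comp.comp
        (Computable.encode.comp (Computable.list_getElem?.comp
          (hl.comp (Computable.fst.comp Computable.fst)) Computable.snd))
        (Computable.encode.comp (Computable.option_some.comp
          (Computable.snd.comp Computable.fst)))
    · simp only [decide_eq_true_eq]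
      exact Encodable.encode_inj
  refine h1.of_eq fun a => ?_
  constructor
  · rintro ⟨b, ⟨i, hi⟩, hb⟩
    exact ⟨b, List.mem_of_getElem? hi, hb⟩
  · rintro ⟨b, hb, hp⟩
    exact ⟨b, List.getElem?_of_mem hb, hp⟩

theorem of_eval (c : Code) : RE (fun x : ℕ × ℕ => x.2 ∈ c.eval x.1) := by
  refine (ex (p := fun (x : ℕ × ℕ) (s : ℕ) => Code.evaln s c x.1 = some x.2) ?_).of_eq
    fun x => ?_
  · refine (of_bool (f := fun y : (ℕ × ℕ) × ℕ =>
      decide (Code.evaln y.2 c y.1.1 = some y.1.2)) ?_).of_eq fun x => by simp
    refine Primrec.to_comp ?_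
    refine Primrec.eq.decide.comp ?_ ?_
    · exact Code.primrec_evaln.comp (Primrec.pair (Primrec.pair Primrec.snd (Primrec.const c))
        (Primrec.fst.comp Primrec.fst))
    · exact Primrec.option_some.comp (Primrec.snd.comp Primrec.fst)
  · rw [Code.evaln_complete]
    rfl

/-- The prefix relation. -/
theorem isPref {f g : α → List β} (hf : Computable f) (hg : Computable g) :
    RE (fun a => f a <+: g a) := by
  refine (ex (p := fun (a : α) (t : List β) => f a ++ t = g a) ?_).of_eq fun a => Iff.rfl
  refine (of_bool (f := fun y : α × List β =>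
      decide (encode (f y.1 ++ y.2) = encode (g y.1))) ?_).of_eq fun x => ?_
  · exact (Primrec.eq (α := ℕ)).decide.to_comp.comp (Computable.encode.comp
      (Computable.list_append.comp (hf.comp Computable.fst) Computable.snd))
      (Computable.encode.comp (hg.comp Computable.fst))
  · simp only [decide_eq_true_eq]
    exact Encodable.encode_inj

theorem of_conv (c : Code) : RE (fun x : List ℕ × ℕ × ℕ => Conv c x.1 x.2.1 x.2.2) := by
  refine ex (p := fun (x : List ℕ × ℕ × ℕ) (τ : List ℕ) =>
    τ <+: x.1 ∧ x.2.2 ∈ c.eval (Nat.pair (encode τ) x.2.1)) (and ?_ ?_)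
  · exact isPref Computable.snd (Computable.fst.comp Computable.fst)
  · refine (of_eval c).comp (f := fun x : (List ℕ × ℕ × ℕ) × List ℕ =>
      (Nat.pair (encode x.2) x.1.2.1, x.1.2.2)) ?_
    refine Computable.pair (Primrec₂.natPair.to_comp.comp (Computable.encode.comp Computable.snd)
      (Computable.fst.comp (Computable.snd.comp Computable.fst)))
      (Computable.snd.comp (Computable.snd.comp Computable.fst))

end RE

/-- Search principle for recursively enumerable relations. -/
theorem search_re {g : ℕ → ℕ} {R : List ℕ → ℕ → β → Prop}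
    (hR : RE (fun x : List ℕ × ℕ × β => R x.1 x.2.1 x.2.2))
    (hex : ∀ m, ∃ k b, R (ini g k) m b) :
    ∃ h : ℕ → β, RecIn g (fun n => encode (h n)) ∧ ∀ m, ∃ k, R (ini g k) m (h m) := by
  obtain ⟨q, hq, h⟩ := hR
  obtain ⟨b0⟩ : Nonempty β := by
    obtain ⟨_, b, _⟩ := hex 0
    exact ⟨b⟩
  obtain ⟨w, hw, hP⟩ := search (g := g) (P := fun ζ m w =>
    ((decode (α := β) w.unpair.1).map (fun b => q (ζ, m, b) w.unpair.2)).getD false) (by
      refine Computable.option_getD (Computable.option_map
        (Computable.decode.comp ((Computable.fst.comp Computable.unpair).comp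
          (Computable.snd.comp Computable.snd))) ?_) (Computable.const false)
      refine hq.comp (Computable.pair (Computable.fst.comp Computable.fst) (Computable.pair
        (Computable.fst.comp (Computable.snd.comp Computable.fst)) Computable.snd)) ?_
      exact (Computable.snd.comp Computable.unpair).comp
        (Computable.snd.comp (Computable.snd.comp Computable.fst))) (by
      intro m
      obtain ⟨k, b, hb⟩ := hex m
      obtain ⟨n, hn⟩ := (h (ini g k, m, b)).mp hb
      exact ⟨k, Nat.pair (encode b) n, by simp [hn]⟩)
  refine ⟨fun m => (decode (α := β) (w m).unpair.1).getD b0, ?_, fun m => ?_⟩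
  · have h1 : Computable (fun x : ℕ => encode ((decode (α := β) x.unpair.1).getD b0)) :=
      Computable.encode.comp (Computable.option_getD (Computable.decode.comp
        (Computable.fst.comp Computable.unpair)) (Computable.const b0))
    exact (RecIn.of_computable h1).comp hw
  · obtain ⟨k, hk⟩ := hP m
    refine ⟨k, ?_⟩
    cases hd : decode (α := β) (w m).unpair.1 with
    | none => rw [hd] at hk; simp at hk
    | some b =>
      rw [hd] at hk
      simp only [Option.map_some, Option.getD_some] at hk
      have := (h (ini g k, m, b)).mpr ⟨_, hk⟩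
      simp only [hd, Option.getD_some]
      exact this

end Pool.Agent.Helper64.SB
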