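import Pool.Agent.Helper64.SB.Logic
import Pool.Agent.Helper64.SB.Re

/-!
Formulas describing finite parts of an elementary diagram, and the computability of their Gödel
numbers.
-/

namespace Pool.Agent.Helper64.SB

open Encodable

/-! ### Operations on Gödel numbers -/

def cimp (a b : ℕ) : ℕ := 4 * Nat.pair a b + 3
def call (i a : ℕ) : ℕ := 4 * Nat.pair i a + 4
def cneg (a : ℕ) : ℕ := cimp a 0
def cand (a b : ℕ) : ℕ := cneg (cimp a (cneg b))
def cor (a b : ℕ) : ℕ := cimp (cneg a) b
def cex (i a : ℕ) : ℕ := cneg (call i (cneg a))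
def ceqv (i j : ℕ) : ℕ := 4 * Nat.pair (2 * i) (2 * j) + 1

theorem code_imp (φ ψ : Fm) : (Fm.imp φ ψ).code = cimp φ.code ψ.code := rfl
theorem code_all (i : ℕ) (φ : Fm) : (Fm.all i φ).code = call i φ.code := rfl
theorem code_neg (φ : Fm) : φ.neg.code = cneg φ.code := rfl
theorem code_and (φ ψ : Fm) : (φ.and ψ).code = cand φ.code ψ.code := rfl
theorem code_or (φ ψ : Fm) : (φ.or ψ).code = cor φ.code ψ.code := rfl
theorem code_ex (i : ℕ) (φ : Fm) : (φ.ex i).code = cex i φ.code := rfl
theorem code_eqv (i j : ℕ) : (Fm.eq (.var i) (.var j)).code = ceqv i j := rfl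

theorem computable_cimp : Computable₂ cimp :=
  (Primrec.nat_add.comp (Primrec.nat_mul.comp (Primrec.const 4) Primrec₂.natPair)
    (Primrec.const 3)).to_comp

theorem computable_call : Computable₂ call :=
  (Primrec.nat_add.comp (Primrec.nat_mul.comp (Primrec.const 4) Primrec₂.natPair)
    (Primrec.const 4)).to_comp

theorem computable_cneg : Computable cneg :=
  computable_cimp.comp Computable.id (Computable.const 0)

theorem computable_cand : Computable₂ cand :=
  computable_cneg.comp (computable_cimp.comp Computable.fst (computable_cneg.comp Computable.snd))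

theorem computable_cor : Computable₂ cor :=
  computable_cimp.comp (computable_cneg.comp Computable.fst) Computable.snd

theorem computable_cex : Computable₂ cex :=
  computable_cneg.comp (computable_call.comp Computable.fst (computable_cneg.comp Computable.snd))

theorem computable_ceqv : Computable₂ ceqv :=
  (Primrec.nat_add.comp (Primrec.nat_mul.comp (Primrec.const 4) (Primrec₂.natPair.comp
    (Primrec.nat_mul.comp (Primrec.const 2) Primrec.fst)
    (Primrec.nat_mul.comp (Primrec.const 2) Primrec.snd))) (Primrec.const 1)).to_comp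

/-- `∀ x (a + k - 1), ..., ∀ x a, φ`. -/
def allN (a : ℕ) : ℕ → Fm → Fm
  | 0, φ => φ
  | k + 1, φ => .all (a + k) (allN a k φ)

/-- `∃ x (a + k - 1), ..., ∃ x a, φ`. -/
def exN (a : ℕ) : ℕ → Fm → Fm
  | 0, φ => φ
  | k + 1, φ => .ex (a + k) (exN a k φ)

def callN (a k e : ℕ) : ℕ := Nat.rec e (fun j c => call (a + j) c) k
def cexN (a k e : ℕ) : ℕ := Nat.rec e (fun j c => cex (a + j) c) k

theorem code_allN (a k : ℕ) (φ : Fm) : (allN a k φ).code = callN a k φ.code := by
  induction k with
  | zero => rfl
  | succ k ih =>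
    show call (a + k) (allN a k φ).code = call (a + k) (callN a k φ.code)
    rw [ih]

theorem code_exN (a k : ℕ) (φ : Fm) : (exN a k φ).code = cexN a k φ.code := by
  induction k with
  | zero => rfl
  | succ k ih =>
    show cex (a + k) (exN a k φ).code = cex (a + k) (cexN a k φ.code)
    rw [ih]

theorem computable_callN : Computable (fun x : ℕ × ℕ × ℕ => callN x.1 x.2.1 x.2.2) := by
  unfold callN
  refine Computable.nat_rec (f := fun x : ℕ × ℕ × ℕ => x.2.1) (g := fun x => x.2.2)
    (h := fun (x : ℕ × ℕ × ℕ) (y : ℕ × ℕ) => call (x.1 + y.1) y.2)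
    (Computable.fst.comp Computable.snd) (Computable.snd.comp Computable.snd) ?_
  exact computable_call.comp (Primrec.nat_add.to_comp.comp (Computable.fst.comp Computable.fst)
    (Computable.fst.comp Computable.snd)) (Computable.snd.comp Computable.snd)

theorem computable_cexN : Computable (fun x : ℕ × ℕ × ℕ => cexN x.1 x.2.1 x.2.2) := by
  unfold cexN
  refine Computable.nat_rec (f := fun x : ℕ × ℕ × ℕ => x.2.1) (g := fun x => x.2.2)
    (h := fun (x : ℕ × ℕ × ℕ) (y : ℕ × ℕ) => cex (x.1 + y.1) y.2)
    (Computable.fst.comp Computable.snd) (Computable.snd.comp Computable.snd) ?_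
  exact computable_cex.comp (Primrec.nat_add.to_comp.comp (Computable.fst.comp Computable.fst)
    (Computable.fst.comp Computable.snd)) (Computable.snd.comp Computable.snd)

section sem

variable {M : Type} {S : Str M} {L : Lang}

theorem sat_allN {a k : ℕ} {φ : Fm} {v : ℕ → M} : (allN a k φ).sat S v ↔
    ∀ w : ℕ → M, (∀ i, (i < a ∨ a + k ≤ i) → w i = v i) → φ.sat S w := by
  induction k generalizing v with
  | zero =>
    constructor
    · intro h w hw
      have : w = v := funext fun i => hw i (by omega)
      rw [this]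
      exact h
    · intro h
      exact h v (fun _ _ => rfl)
  | succ k ih =>
    simp only [allN, Fm.sat_all]
    constructor
    · intro h w hw
      refine (ih.mp (h (w (a + k)))) w fun i hi => ?_
      by_cases hik : i = a + k
      · subst hik; simp
      · rw [Function.update_of_ne hik]
        exact hw i (by omega)
    · intro h b
      rw [ih]
      intro w hw
      refine h w fun i hi => ?_
      rw [hw i (by omega), Function.update_of_ne (by omega)]

theorem sat_exN {a k : ℕ} {φ : Fm} {v : ℕ → M} : (exN a k φ).sat S v ↔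
    ∃ w : ℕ → M, (∀ i, (i < a ∨ a + k ≤ i) → w i = v i) ∧ φ.sat S w := by
  induction k generalizing v with
  | zero =>
    constructor
    · intro h
      exact ⟨v, fun _ _ => rfl, h⟩
    · rintro ⟨w, hw, h⟩
      have : w = v := funext fun i => hw i (by omega)
      rw [← this]
      exact h
  | succ k ih =>
    simp only [exN, Fm.sat_ex]
    constructor
    · rintro ⟨b, h⟩
      obtain ⟨w, hw, h⟩ := ih.mp h
      refine ⟨w, fun i hi => ?_, h⟩
      rw [hw i (by omega), Function.update_of_ne (by omega)]
    · rintro ⟨w, hw, h⟩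
      refine ⟨w (a + k), ih.mpr ⟨w, fun i hi => ?_, h⟩⟩
      by_cases hik : i = a + k
      · subst hik; simp
      · rw [Function.update_of_ne hik]
        exact hw i (by omega)

theorem wf_allN {a k : ℕ} {φ : Fm} : (allN a k φ).wf L ↔ φ.wf L := by
  induction k with
  | zero => exact Iff.rfl
  | succ k ih => simpa [allN] using ih

theorem wf_exN {a k : ℕ} {φ : Fm} : (exN a k φ).wf L ↔ φ.wf L := by
  induction k with
  | zero => exact Iff.rfl
  | succ k ih => simpa [exN] using ih

theorem free_allN {a k i : ℕ} {φ : Fm} :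
    (allN a k φ).free i ↔ (i < a ∨ a + k ≤ i) ∧ φ.free i := by
  induction k with
  | zero =>
    simp only [allN]
    constructor
    · exact fun h => ⟨by omega, h⟩
    · exact fun h => h.2
  | succ k ih =>
    simp only [allN, Fm.free_all, ih]
    constructor
    · rintro ⟨h1, h2, h3⟩
      exact ⟨by omega, h3⟩
    · rintro ⟨h1, h2⟩
      exact ⟨by omega, by omega, h2⟩

theorem free_exN {a k i : ℕ} {φ : Fm} :
    (exN a k φ).free i ↔ (i < a ∨ a + k ≤ i) ∧ φ.free i := by
  induction k with
  | zero =>
    simp only [exN]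
    constructor
    · exact fun h => ⟨by omega, h⟩
    · exact fun h => h.2
  | succ k ih =>
    simp only [exN, Fm.free_ex, ih]
    constructor
    · rintro ⟨h1, h2, h3⟩
      exact ⟨by omega, h3⟩
    · rintro ⟨h1, h2⟩
      exact ⟨by omega, by omega, h2⟩

/-- The number `e` is the Gödel number of a formula of the language. -/
def IsFm (L : Lang) (e : ℕ) : Prop := ∃ φ : Fm, φ.wf L ∧ φ.code = e

theorem isFm_of_callN {a k e : ℕ} (h : IsFm L (callN a k e)) : IsFm L e := by
  induction k with
  | zero => exact h
  | succ k ih =>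
    obtain ⟨φ, h1, h2⟩ := h
    have h2' : φ.code = call (a + k) (callN a k e) := h2
    apply ih
    cases φ with
    | all i ψ =>
      have : Nat.pair i ψ.code = Nat.pair (a + k) (callN a k e) := by
        simp only [Fm.code, call] at h2'
        omega
      rw [Nat.pair_eq_pair] at this
      exact ⟨ψ, h1, this.2⟩
    | fls => simp only [Fm.code, call] at h2'; omega
    | _ => simp only [Fm.code, call] at h2'; omega

theorem isFm_of_cneg {e : ℕ} (h : IsFm L (cneg e)) : IsFm L e := by
  obtain ⟨φ, h1, h2⟩ := h
  cases φ with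
  | imp φ ψ =>
    have : Nat.pair φ.code ψ.code = Nat.pair e 0 := by
      simp only [Fm.code, cneg, cimp] at h2
      omega
    rw [Nat.pair_eq_pair] at this
    exact ⟨φ, h1.1, this.1⟩
  | fls => simp only [Fm.code, cneg, cimp] at h2; omega
  | _ => simp only [Fm.code, cneg, cimp] at h2; omega

theorem isFm_iff (S : Str M) [Nonempty M] (e : ℕ) : IsFm L e ↔
    (callN 0 (e + 1) e ∈ Th L S ∨ cneg (callN 0 (e + 1) e) ∈ Th L S) := by
  constructor
  · rintro ⟨φ, h1, rfl⟩
    have hfree : ∀ i, ¬ (allN 0 (φ.code + 1) φ).free i := by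
      intro i hi
      rw [free_allN] at hi
      have := Fm.free_le hi.2
      omega
    have hwf : (allN 0 (φ.code + 1) φ).wf L := wf_allN.mpr h1
    by_cases h : (allN 0 (φ.code + 1) φ).sat S (fun _ => Classical.arbitrary M)
    · left
      refine ⟨_, hwf, hfree, fun v => ?_, code_allN _ _ _⟩
      exact (Fm.sat_congr fun i hi => absurd hi (hfree i)).mp h
    · right
      refine ⟨(allN 0 (φ.code + 1) φ).neg, Fm.wf_neg.mpr hwf, fun i hi => hfree i (by simpa using hi),
        fun v => ?_, by rw [code_neg, code_allN]⟩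
      rw [Fm.sat_neg]
      exact fun hc => h ((Fm.sat_congr fun i hi => absurd hi (hfree i)).mp hc)
  · rintro (⟨φ, h1, _, _, h2⟩ | ⟨φ, h1, _, _, h2⟩)
    · exact isFm_of_callN ⟨φ, h1, h2⟩
    · exact isFm_of_callN (isFm_of_cneg ⟨φ, h1, h2⟩)

end sem

end Pool.Agent.Helper64.SB
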