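import Mathlib

/-!
First-order logic with named variables over computably presented languages; types, saturation,
elementary diagrams; Turing jumps; models of Peano arithmetic.
-/

namespace Pool.Agent.Helper64.SB

/-- Terms: the variables `x i`, and the `f`-th function symbol applied to `n` terms. -/
inductive Tm : Type
  | var (i : ℕ) : Tm
  | fn (f n : ℕ) (ts : Fin n → Tm) : Tm

/-- First-order formulas: equations, the `r`-th relation symbol applied to `n` terms, falsity,
implication, and universal quantification over the variable `x i`. -/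
inductive Fm : Type
  | eq (t u : Tm) : Fm
  | rel (r n : ℕ) (ts : Fin n → Tm) : Fm
  | fls : Fm
  | imp (φ ψ : Fm) : Fm
  | all (i : ℕ) (φ : Fm) : Fm

/-- A computably presented language: `fa f = some n` if the `f`-th function symbol exists and has
arity `n`, and `fa f = none` if there is no such symbol; `ra` is the same for relation symbols. -/
structure Lang : Type where
  fa : ℕ → Option ℕ
  ra : ℕ → Option ℕ
  fa_comp : Computable fa
  ra_comp : Computable ra

/-- The term belongs to the language. -/
def Tm.wf (L : Lang) : Tm → Prop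
  | .var _ => True
  | .fn f n ts => L.fa f = some n ∧ ∀ k, (ts k).wf L

/-- The formula belongs to the language. -/
def Fm.wf (L : Lang) : Fm → Prop
  | .eq t u => t.wf L ∧ u.wf L
  | .rel r n ts => L.ra r = some n ∧ ∀ k, (ts k).wf L
  | .fls => True
  | .imp φ ψ => φ.wf L ∧ ψ.wf L
  | .all _ φ => φ.wf L

/-- The variable `x i` occurs in the term. -/
def Tm.occ (i : ℕ) : Tm → Prop
  | .var j => i = j
  | .fn _ _ ts => ∃ k, (ts k).occ i

/-- The variable `x i` occurs free in the formula. -/
def Fm.free (i : ℕ) : Fm → Prop
  | .eq t u => t.occ i ∨ u.occ i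
  | .rel _ _ ts => ∃ k, (ts k).occ i
  | .fls => False
  | .imp φ ψ => φ.free i ∨ ψ.free i
  | .all j φ => i ≠ j ∧ φ.free i

/-- A structure with universe `M` (only the symbols of the language at hand matter). -/
structure Str (M : Type) : Type where
  fn : ℕ → (n : ℕ) → (Fin n → M) → M
  rel : ℕ → (n : ℕ) → (Fin n → M) → Prop

/-- Value of a term under an assignment. -/
def Tm.eval {M : Type} (S : Str M) (v : ℕ → M) : Tm → M
  | .var i => v i
  | .fn f n ts => S.fn f n (fun k => (ts k).eval S v)

/-- Truth of a formula under an assignment. -/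
def Fm.sat {M : Type} (S : Str M) : Fm → (ℕ → M) → Prop
  | .eq t u, v => t.eval S v = u.eval S v
  | .rel r n ts, v => S.rel r n (fun k => (ts k).eval S v)
  | .fls, _ => False
  | .imp φ ψ, v => φ.sat S v → ψ.sat S v
  | .all i φ, v => ∀ a, φ.sat S (Function.update v i a)

/-- The Gödel number of a term. -/
def Tm.code : Tm → ℕ
  | .var i => 2 * i
  | .fn f n ts => 2 * Nat.pair f (Encodable.encode (List.ofFn fun k : Fin n => (ts k).code)) + 1

/-- The Gödel number of a formula. -/
def Fm.code : Fm → ℕ
  | .fls => 0
  | .eq t u => 4 * Nat.pair t.code u.code + 1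
  | .rel r n ts => 4 * Nat.pair r (Encodable.encode (List.ofFn fun k : Fin n => (ts k).code)) + 2
  | .imp φ ψ => 4 * Nat.pair φ.code ψ.code + 3
  | .all i φ => 4 * Nat.pair i φ.code + 4

/-- The complete theory of a structure: the set of (Gödel numbers of) sentences of `L` true in
it. -/
def Th {M : Type} (L : Lang) (S : Str M) : Set ℕ :=
  {e | ∃ φ : Fm, φ.wf L ∧ (∀ i, ¬ φ.free i) ∧ (∀ v, φ.sat S v) ∧ φ.code = e}

/-- The complete type of the tuple `v 0, ..., v (n - 1)`: the set of (Gödel numbers of) formulas
of `L` in the free variables `x 0, ..., x (n - 1)` which it satisfies. -/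
def tp {M : Type} (L : Lang) (S : Str M) (n : ℕ) (v : ℕ → M) : Set ℕ :=
  {e | ∃ φ : Fm, φ.wf L ∧ (∀ i, φ.free i → i < n) ∧ φ.sat S v ∧ φ.code = e}

/-- The elementary diagram of a structure with universe `ℕ`: the set of (Gödel numbers of)
formulas of `L` which are true when each free variable `x i` is a name of the element `i`. -/
def diag (L : Lang) (S : Str ℕ) : Set ℕ :=
  {e | ∃ φ : Fm, φ.wf L ∧ φ.sat S id ∧ φ.code = e}

/-- All types of the complete theory of `S` (that is, all types of finite tuples in structures
with the same theory) are computable. -/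
def TypesComputable {M : Type} (L : Lang) (S : Str M) : Prop :=
  ∀ (N : Type) (S' : Str N), Th L S' = Th L S → ∀ (n : ℕ) (v : ℕ → N),
    ComputablePred (fun e => e ∈ tp L S' n v)

/-- Saturation: whenever the tuple `v 0, ..., v (n - 1)` of `M` and the tuple
`w 0, ..., w (n - 1)` of any structure have the same type, so that the type of
`w 0, ..., w (n + k - 1)` gives a complete `k`-type over `v 0, ..., v (n - 1)`, the latter is
realized in `M`. -/
def Saturated {M : Type} (L : Lang) (S : Str M) : Prop :=
  ∀ (N : Type) (S' : Str N) (n k : ℕ) (v : ℕ → M) (w : ℕ → N), tp L S n v = tp L S' n w →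
    ∃ v' : ℕ → M, (∀ i < n, v' i = v i) ∧ tp L S (n + k) v' = tp L S' (n + k) w

open Classical in
/-- The characteristic function of a set of natural numbers. -/
noncomputable def chi (A : Set ℕ) (n : ℕ) : ℕ := if n ∈ A then 1 else 0

/-- Turing reducibility: `A` is computable from `B`. -/
def Red (A B : Set ℕ) : Prop := TuringReducible (chi A : ℕ →. ℕ) (chi B : ℕ →. ℕ)

/-- `X` is saturated bounding: every complete decidable theory `T` (with infinite models) all of
whose types are computable has a saturated model with universe `ℕ` whose elementary diagram is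
computable from `X`. -/
def SaturatedBounding (X : Set ℕ) : Prop :=
  ∀ (L : Lang) (M : Type) (S : Str M), Infinite M → ComputablePred (fun e => e ∈ Th L S) →
    TypesComputable L S → ∃ S' : Str ℕ, Th L S' = Th L S ∧ Saturated L S' ∧ Red (diag L S') X

/-- `A` is computably enumerable relative to `X`. -/
def ReIn (X A : Set ℕ) : Prop :=
  ∃ f : ℕ →. ℕ, TuringReducible f (chi X : ℕ →. ℕ) ∧ ∀ n, n ∈ A ↔ (f n).Dom

/-- `J` is (a set of the same many-one degree as) the Turing jump of `X`: it is computably
enumerable relative to `X`, and every such set is many-one reducible to it. -/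
def IsJump (X J : Set ℕ) : Prop :=
  ReIn X J ∧ ∀ A, ReIn X A → ManyOneReducible (fun n => n ∈ A) (fun n => n ∈ J)

/-- `X` is high: its jump computes the double jump of the empty set (for one choice of the sets
representing the jumps, equivalently for all choices). -/
def High (X : Set ℕ) : Prop :=
  ∀ J J₁ J₂, IsJump X J → IsJump ∅ J₁ → IsJump J₁ J₂ → Red J₂ J

/-- The language of arithmetic: zero, successor, addition, multiplication. -/
def arith : Lang where
  fa f := [0, 1, 2, 2][f]?
  ra _ := none
  fa_comp := (Primrec.list_getElem?₁ [0, 1, 2, 2]).to_comp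
  ra_comp := Computable.const none

/-- The structure is a model of Peano arithmetic. -/
def IsPA {M : Type} (S : Str M) : Prop :=
  (∀ x, S.fn 1 1 ![x] ≠ S.fn 0 0 ![]) ∧
  (∀ x y, S.fn 1 1 ![x] = S.fn 1 1 ![y] → x = y) ∧
  (∀ x, S.fn 2 2 ![x, S.fn 0 0 ![]] = x) ∧
  (∀ x y, S.fn 2 2 ![x, S.fn 1 1 ![y]] = S.fn 1 1 ![S.fn 2 2 ![x, y]]) ∧
  (∀ x, S.fn 3 2 ![x, S.fn 0 0 ![]] = S.fn 0 0 ![]) ∧
  (∀ x y, S.fn 3 2 ![x, S.fn 1 1 ![y]] = S.fn 2 2 ![S.fn 3 2 ![x, y], x]) ∧
  ∀ φ : Fm, φ.wf arith → ∀ (i : ℕ) (v : ℕ → M), φ.sat S (Function.update v i (S.fn 0 0 ![])) →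
    (∀ b, φ.sat S (Function.update v i b) → φ.sat S (Function.update v i (S.fn 1 1 ![b]))) →
    ∀ b, φ.sat S (Function.update v i b)

/-- `X` has PA degree: it computes a complete consistent extension of Peano arithmetic, that is,
the complete theory of some model of Peano arithmetic. -/
def PADegree (X : Set ℕ) : Prop := ∃ (M : Type) (S : Str M), IsPA S ∧ Red (Th arith S) X

end Pool.Agent.Helper64.SB
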