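import Pool.Agent.Helper64.SB.Search

/-!
Oracles which compute neither a function dominating all computable functions nor a total function
avoiding a given relation.
-/

namespace Pool.Agent.Helper64.SB

open Nat.Partrec (Code)
open Encodable

/-- No function computable relative to `g` dominates all computable functions. -/
def NonHigh (g : ℕ → ℕ) : Prop :=
  ∀ h, RecIn g h → ∃ f : ℕ → ℕ, Computable f ∧ ∀ N, ∃ m ≥ N, h m < f m

/-- No total function computable relative to `g` avoids the relation `B`. -/
def NonAvoid (B : ℕ → ℕ → Prop) (g : ℕ → ℕ) : Prop :=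
  ∀ h, RecIn g h → ∃ m, B m (h m)

/-- Both properties. -/
structure Good (B : ℕ → ℕ → Prop) (g : ℕ → ℕ) : Prop where
  nonHigh : NonHigh g
  nonAvoid : NonAvoid B g

theorem Good.mono {B : ℕ → ℕ → Prop} {g f : ℕ → ℕ} (hg : Good B g) (hf : RecIn g f) : Good B f :=
  ⟨fun _ hh => hg.nonHigh _ (hf.trans hh), fun _ hh => hg.nonAvoid _ (hf.trans hh)⟩

theorem RecIn.computable {g f : ℕ → ℕ} (hg : Computable g) (hf : RecIn g f) : Computable f := by
  have := Nat.RecursiveIn.partrec_of_oracle (O := {(g : ℕ →. ℕ)}) (fun k hk => by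
    rw [Set.mem_singleton_iff] at hk
    subst hk
    exact Partrec.nat_iff.mp hg) hf
  exact Partrec.nat_iff.mpr this

theorem good_of_computable {B : ℕ → ℕ → Prop} {g : ℕ → ℕ} (hg : Computable g)
    (hB : ∀ h : ℕ → ℕ, Computable h → ∃ m, B m (h m)) : Good B g := by
  refine ⟨fun h hh => ⟨fun n => h n + 1, ?_, fun N => ⟨N, le_rfl, Nat.lt_succ_self _⟩⟩,
    fun h hh => hB h (hh.computable hg)⟩
  exact Computable.succ.comp (hh.computable hg)

/-- A single computable function which infinitely often exceeds each member of a family. -/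
theorem NonHigh.family {g h : ℕ → ℕ} (hg : NonHigh g) (hh : RecIn g h) :
    ∃ f : ℕ → ℕ, Computable f ∧ ∀ j N, ∃ n ≥ N, h (Nat.pair j n) < f n := by
  have hmax : Computable₂ (fun (a b : ℕ) => max a b) := Primrec.nat_max.to_comp
  have h1 : RecIn g (fun n => h (Nat.pair 0 n)) :=
    hh.comp (RecIn.of_computable (Primrec₂.natPair.comp (Primrec.const 0) Primrec.id).to_comp)
  have h2 : RecIn g (fun x => max x.unpair.2.unpair.2
      (h (Nat.pair (x.unpair.2.unpair.1 + 1) x.unpair.1))) := by
    refine RecIn.comp₂ hmax ?_ (hh.comp ?_)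
    · exact RecIn.of_computable ((Computable.snd.comp Computable.unpair).comp
        (Computable.snd.comp Computable.unpair))
    · refine RecIn.of_computable (Primrec₂.natPair.to_comp.comp (Computable.succ.comp
        ((Computable.fst.comp Computable.unpair).comp
        (Computable.snd.comp Computable.unpair))) (Computable.fst.comp Computable.unpair))
  have h3 := (RecIn.prec h1 h2).comp (h := fun n => Nat.pair n n)
    (RecIn.of_computable (Primrec₂.natPair.comp Primrec.id Primrec.id).to_comp)
  obtain ⟨f, hf, hfN⟩ := hg _ h3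
  refine ⟨f, hf, fun j N => ?_⟩
  obtain ⟨m, hm, hlt⟩ := hfN (max j N)
  refine ⟨m, by omega, lt_of_le_of_lt ?_ hlt⟩
  simp only [Nat.unpair_pair]
  have key : ∀ k j, j ≤ k → h (Nat.pair j m) ≤ Nat.rec (h (Nat.pair 0 m))
      (fun y i => max i (h (Nat.pair (y + 1) m))) k := by
    intro k
    induction k with
    | zero =>
      intro j hj
      obtain rfl : j = 0 := by omega
      exact le_rfl
    | succ k ih =>
      intro j hj
      rcases Nat.le_succ_iff.mp hj with hj | rfl
      · exact (ih j hj).trans (le_max_left _ _)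
      · exact le_max_right _ _
  exact key m j (by omega)

/-- The join of two oracles. -/
def join (g f : ℕ → ℕ) (n : ℕ) : ℕ := Nat.pair (g n) (f n)

theorem RecIn.join_left (g f : ℕ → ℕ) : RecIn (join g f) g := by
  refine ((RecIn.of_computable (Computable.fst.comp Computable.unpair)).comp
    (RecIn.refl (join g f))).of_eq fun n => ?_
  simp [join]

theorem RecIn.join_right (g f : ℕ → ℕ) : RecIn (join g f) f := by
  refine ((RecIn.of_computable (Computable.snd.comp Computable.unpair)).comp
    (RecIn.refl (join g f))).of_eq fun n => ?_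
  simp [join]

end Pool.Agent.Helper64.SB
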