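import Pool.Agent.Helper64.SB.Upper2
import Pool.Agent.Helper64.SB.Defs

/-!
Turing jumps exist; an oracle which is high computes a function dominating all computable
functions.
-/

namespace Pool.Agent.Helper64.SB

open Nat.Partrec (Code)
open Encodable

theorem encode_le_of_mem {α : Type} [Encodable α] {l : List α} {a : α} (h : a ∈ l) :
    encode a ≤ encode l := by
  induction l with
  | nil => cases h
  | cons b l ih =>
    rw [Encodable.encode_list_cons]
    rcases List.mem_cons.mp h with rfl | h
    · exact (Nat.left_le_pair _ _).trans (Nat.le_succ _)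
    · exact ((ih h).trans (Nat.right_le_pair _ _)).trans (Nat.le_succ _)

theorem tr_iff {f : ℕ →. ℕ} {g : ℕ → ℕ} :
    TuringReducible f (g : ℕ →. ℕ) ↔ Nat.RecursiveIn {(g : ℕ →. ℕ)} f := RecursiveIn.iff_nat

theorem red_iff {A B : Set ℕ} : Red A B ↔ RecIn (chi B) (chi A) := tr_iff

/-- The set of inputs accepted by a recursively enumerable relation of finite strings is
computably enumerable in the oracle. -/
theorem reIn_of_re {X A : Set ℕ} {R : List ℕ → ℕ → Prop}
    (hR : RE (fun x : List ℕ × ℕ => R x.1 x.2)) (hA : ∀ n, n ∈ A ↔ ∃ k, R (ini (chi X) k) n) :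
    ReIn X A := by
  obtain ⟨q, hq, h⟩ := hR
  have hQ : Computable₂ (fun (e x : ℕ) => cond (q ((decode (α := List ℕ) e).getD [], x.unpair.1)
      x.unpair.2) 0 1) := by
    refine Computable.cond (hq.comp (Computable.pair ?_ ?_) ?_)
      (Computable.const _) (Computable.const _)
    · exact Computable.option_getD (Computable.decode.comp Computable.fst) (Computable.const [])
    · exact (Computable.fst.comp Computable.unpair).comp Computable.snd
    · exact (Computable.snd.comp Computable.unpair).comp Computable.snd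
  have h1 : RecIn (chi X) (fun z => cond (q ((decode (α := List ℕ)
      (encode (ini (chi X) z.unpair.2.unpair.1))).getD [],
      (Nat.pair z.unpair.1 z.unpair.2.unpair.2).unpair.1)
      (Nat.pair z.unpair.1 z.unpair.2.unpair.2).unpair.2) 0 1) := by
    refine RecIn.comp₂ hQ (f := fun z => encode (ini (chi X) z.unpair.2.unpair.1))
      (h := fun z => Nat.pair z.unpair.1 z.unpair.2.unpair.2) ?_ ?_
    · exact (recIn_ini _).comp (RecIn.of_computable ((Computable.fst.comp Computable.unpair).comp
        (Computable.snd.comp Computable.unpair)))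
    · exact RecIn.of_computable (Primrec₂.natPair.to_comp.comp
        (Computable.fst.comp Computable.unpair) ((Computable.snd.comp Computable.unpair).comp
        (Computable.snd.comp Computable.unpair)))
  refine ⟨_, tr_iff.mpr (Nat.RecursiveIn.rfind h1), fun n => ?_⟩
  rw [hA]
  have key : ∀ p : ℕ → ℕ, (Nat.rfind fun m => (fun m => decide (m = 0)) <$>
      ((fun m => Part.some (p m)) m : Part ℕ)).Dom ↔ ∃ m, p m = 0 := by
    intro p
    constructor
    · intro hd
      obtain ⟨m, hm⟩ := Part.dom_iff_mem.mp hd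
      have := (Nat.mem_rfind.mp hm).1
      exact ⟨m, by simpa using this⟩
    · rintro ⟨m, hm⟩
      exact Nat.rfind_dom.mpr ⟨m, by simpa using hm, fun {k} _ => by simp⟩
  refine Iff.trans ?_ (key _).symm
  simp only [Nat.unpair_pair, encodek, Option.getD_some]
  constructor
  · rintro ⟨k, hk⟩
    obtain ⟨w, hw⟩ := (h (ini (chi X) k, n)).mp hk
    refine ⟨Nat.pair k w, ?_⟩
    simp [hw]
  · rintro ⟨m, hm⟩
    refine ⟨m.unpair.1, (h (ini (chi X) m.unpair.1, n)).mpr ⟨m.unpair.2, ?_⟩⟩
    by_contra hcon
    rw [Bool.not_eq_true] at hcon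
    rw [hcon] at hm
    simp at hm

theorem re_univ : RE (fun x : ℕ × ℕ × ℕ => x.2.2 ∈ (Denumerable.ofNat Code x.1).eval x.2.1) := by
  refine (RE.ex (p := fun (x : ℕ × ℕ × ℕ) (s : ℕ) =>
    Code.evaln s (Denumerable.ofNat Code x.1) x.2.1 = some x.2.2) ?_).of_eq fun x => ?_
  · refine RE.eq ?_ ?_
    · exact (Code.primrec_evaln.comp (Primrec.pair (Primrec.pair Primrec.snd
        ((Primrec.ofNat Code).comp (Primrec.fst.comp Primrec.fst)))
        (Primrec.fst.comp (Primrec.snd.comp Primrec.fst)))).to_comp
    · exact Computable.option_some.comp (Computable.snd.comp (Computable.snd.comp Computable.fst))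
  · rw [Code.evaln_complete]
    rfl

/-- A representative of the jump. -/
def jmp (X : Set ℕ) : Set ℕ :=
  {e | ∃ k, ∃ v, Conv (Denumerable.ofNat Code e) (ini (chi X) k) e v}

theorem re_jmp : RE (fun x : List ℕ × ℕ => ∃ v, Conv (Denumerable.ofNat Code x.2) x.1 x.2 v) := by
  refine RE.ex (p := fun (x : List ℕ × ℕ) (v : ℕ) =>
    Conv (Denumerable.ofNat Code x.2) x.1 x.2 v) ?_
  refine RE.ex (p := fun (x : (List ℕ × ℕ) × ℕ) (τ : List ℕ) => τ <+: x.1.1 ∧
    x.2 ∈ (Denumerable.ofNat Code x.1.2).eval (Nat.pair (encode τ) x.1.2)) (RE.and ?_ ?_)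
  · exact RE.isPref Computable.snd (Computable.fst.comp (Computable.fst.comp Computable.fst))
  · refine re_univ.comp (f := fun y : ((List ℕ × ℕ) × ℕ) × List ℕ =>
      (y.1.1.2, Nat.pair (encode y.2) y.1.1.2, y.1.2)) ?_
    refine Computable.pair (Computable.snd.comp (Computable.fst.comp Computable.fst))
      (Computable.pair (Primrec₂.natPair.to_comp.comp (Computable.encode.comp Computable.snd)
        (Computable.snd.comp (Computable.fst.comp Computable.fst)))
        (Computable.snd.comp Computable.fst))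

theorem isJump_jmp (X : Set ℕ) : IsJump X (jmp X) := by
  refine ⟨?_, fun A hA => ?_⟩
  · exact reIn_of_re (R := fun σ e => ∃ v, Conv (Denumerable.ofNat Code e) σ e v) re_jmp
      (fun n => Iff.rfl)
  · obtain ⟨f, hf, hd⟩ := hA
    obtain ⟨c, hc⟩ := normal_form (tr_iff.mp hf)
    refine ⟨fun n => encode (Code.comp c (Code.pair Code.left (Code.const n))), ?_, fun n => ?_⟩
    · refine Computable.encode.comp ?_
      exact (Code.primrec₂_comp.comp (Primrec.const c) (Code.primrec₂_pair.comp
        (Primrec.const Code.left) (Code.primrec_const.comp Primrec.id))).to_comp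
    · show n ∈ A ↔ encode (Code.comp c (Code.pair Code.left (Code.const n))) ∈ jmp X
      rw [hd, Part.dom_iff_mem]
      have key : ∀ τ v, Conv (Code.comp c (Code.pair Code.left (Code.const n))) τ
          (encode (Code.comp c (Code.pair Code.left (Code.const n)))) v ↔ Conv c τ n v := by
        intro τ v
        unfold Conv
        have : ∀ (ρ : List ℕ) (m : ℕ), (Code.comp c (Code.pair Code.left (Code.const n))).eval
            (Nat.pair (encode ρ) m) = c.eval (Nat.pair (encode ρ) n) := by
          intro ρ m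
          have h1 : (Code.pair Code.left (Code.const n)).eval (Nat.pair (encode ρ) m) =
              Part.some (Nat.pair (encode ρ) n) := by
            simp [Code.eval, Code.eval_const, Seq.seq]
          show (Code.pair Code.left (Code.const n)).eval (Nat.pair (encode ρ) m) >>= c.eval = _
          rw [h1]
          exact Part.bind_some _ _
        simp only [this]
      simp only [jmp, Set.mem_ofPred_eq, Denumerable.ofNat_encode, key]
      constructor
      · rintro ⟨v, hv⟩
        obtain ⟨k, hk⟩ := (hc n v).mp hv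
        exact ⟨k, v, hk⟩
      · rintro ⟨k, v, hk⟩
        exact ⟨v, (hc n v).mpr ⟨k, hk⟩⟩

/-- Approximation of the computably enumerable set given by the matrix `q`. -/
def JA (q : List ℕ × ℕ → ℕ → Bool) (ξ : List ℕ) (n : ℕ) : ℕ :=
  Nat.rec 0 (fun t b => cond (q (ξ.take t.unpair.1, n) t.unpair.2) 1 b) ξ.length

theorem JA_le (q : List ℕ × ℕ → ℕ → Bool) (ξ : List ℕ) (n : ℕ) :
    JA q ξ n = if ∃ t < ξ.length, q (ξ.take t.unpair.1, n) t.unpair.2 = true then 1 else 0 := by
  unfold JA
  generalize ξ.length = L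
  induction L with
  | zero => simp
  | succ L ih =>
    simp only [ih]
    by_cases h : q (ξ.take L.unpair.1, n) L.unpair.2 = true
    · rw [h, cond_true, if_pos ⟨L, Nat.lt_succ_self _, h⟩]
    · rw [Bool.not_eq_true] at h
      rw [h, cond_false]
      by_cases h' : ∃ t < L, q (ξ.take t.unpair.1, n) t.unpair.2 = true
      · obtain ⟨t, ht, ht'⟩ := h'
        rw [if_pos ⟨t, ht, ht'⟩, if_pos ⟨t, by omega, ht'⟩]
      · rw [if_neg h', if_neg]
        rintro ⟨t, ht, ht'⟩
        rcases Nat.lt_succ_iff_lt_or_eq.mp ht with ht | rfl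
        · exact h' ⟨t, ht, ht'⟩
        · rw [h] at ht'; cases ht'

/-- Approximation of an initial segment of the characteristic function. -/
def jstr (q : List ℕ × ℕ → ℕ → Bool) (ξ : List ℕ) (k : ℕ) : List ℕ :=
  (List.range k).map (JA q ξ)

theorem computable_JA {q : List ℕ × ℕ → ℕ → Bool} (hq : Computable₂ q) :
    Computable₂ (JA q) := by
  unfold JA
  refine Computable.nat_rec (f := fun x : List ℕ × ℕ => x.1.length) (g := fun _ => 0)
    (h := fun (x : List ℕ × ℕ) (y : ℕ × ℕ) =>
      cond (q (x.1.take y.1.unpair.1, x.2) y.1.unpair.2) 1 y.2)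
    (Computable.list_length.comp Computable.fst) (Computable.const 0) ?_
  refine Computable.cond (hq.comp (Computable.pair ?_ ?_) ?_) (Computable.const 1)
    (Computable.snd.comp Computable.snd)
  · exact Primrec.list_take.to_comp.comp ((Computable.fst.comp Computable.unpair).comp
      (Computable.fst.comp Computable.snd)) (Computable.fst.comp Computable.fst)
  · exact Computable.snd.comp Computable.fst
  · exact (Computable.snd.comp Computable.unpair).comp (Computable.fst.comp Computable.snd)

theorem computable_jstr {q : List ℕ × ℕ → ℕ → Bool} (hq : Computable₂ q) :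
    Computable₂ (jstr q) := by
  have h : Computable (fun x : List ℕ × ℕ => (Nat.rec (motive := fun _ => List ℕ) []
      (fun k l => l ++ [JA q x.1 k]) x.2 : List ℕ)) := by
    refine Computable.nat_rec (f := fun x : List ℕ × ℕ => x.2) (g := fun _ => ([] : List ℕ))
      (h := fun (x : List ℕ × ℕ) (y : ℕ × List ℕ) => y.2 ++ [JA q x.1 y.1])
      Computable.snd (Computable.const []) ?_
    exact Computable.list_concat.comp (Computable.snd.comp Computable.snd)
      ((computable_JA hq).comp (Computable.fst.comp Computable.fst)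
        (Computable.fst.comp Computable.snd))
  refine h.of_eq fun x => ?_
  show _ = jstr q x.1 x.2
  unfold jstr
  generalize x.2 = k
  induction k with
  | zero => rfl
  | succ k ih =>
    simp only [ih]
    simp [List.range_succ]

/-- The approximation converges. -/
theorem jstr_lim {q : List ℕ × ℕ → ℕ → Bool} {X J : Set ℕ}
    (hJ : ∀ n, n ∈ J ↔ ∃ k w, q (ini (chi X) k, n) w = true) (T : ℕ) :
    ∃ s0, ∀ s ≥ s0, ∀ k ≤ T, jstr q (ini (chi X) s) k = ini (chi J) k := by
  have h1 : ∀ n, ∃ s0, ∀ s ≥ s0, JA q (ini (chi X) s) n = chi J n := by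
    intro n
    by_cases hn : n ∈ J
    · obtain ⟨k, w, hw⟩ := (hJ n).mp hn
      refine ⟨Nat.pair k w + k + 1, fun s hs => ?_⟩
      rw [JA_le, if_pos]
      · simp [chi, hn]
      · refine ⟨Nat.pair k w, by rw [length_ini]; omega, ?_⟩
        simp only [Nat.unpair_pair]
        have : (ini (chi X) s).take k = ini (chi X) k := by
          obtain ⟨ρ, hρ⟩ := ini_prefix (chi X) (show k ≤ s by omega)
          rw [← hρ]
          simp
        rw [this]
        exact hw
    · refine ⟨0, fun s _ => ?_⟩
      rw [JA_le, if_neg]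
      · simp [chi, hn]
      · rintro ⟨t, ht, ht'⟩
        rw [length_ini] at ht
        apply hn
        rw [hJ]
        refine ⟨min t.unpair.1 s, t.unpair.2, ?_⟩
        have : (ini (chi X) s).take t.unpair.1 = ini (chi X) (min t.unpair.1 s) := by
          rw [prefix_ini (List.take_prefix t.unpair.1 (ini (chi X) s))]
          simp
        rw [← this]
        exact ht'
  choose s0 hs0 using h1
  obtain ⟨S, hS⟩ : ∃ S, ∀ n < T, s0 n ≤ S := by
    refine ⟨∑ n ∈ Finset.range T, s0 n, fun n hn => ?_⟩
    exact Finset.single_le_sum (f := s0) (fun _ _ => Nat.zero_le _) (Finset.mem_range.mpr hn)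
  refine ⟨S, fun s hs k hk => ?_⟩
  unfold jstr ini
  refine List.map_congr_left fun n hn => ?_
  have hn' := List.mem_range.mp hn
  exact hs0 n s ((hS n (by omega)).trans hs)

/-- Approximation of a function computable in the computably enumerable set. -/
def UA (q : List ℕ × ℕ → ℕ → Bool) (q' : List ℕ × ℕ × ℕ → ℕ → Bool) (ξ : List ℕ) (e : ℕ) : ℕ :=
  Nat.rec 0 (fun m b =>
    let t := ξ.length - (m + 1)
    cond (q' (jstr q ξ t.unpair.1, e, t.unpair.2.unpair.1) t.unpair.2.unpair.2)
      t.unpair.2.unpair.1 b) ξ.length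

theorem computable_UA {q : List ℕ × ℕ → ℕ → Bool} (hq : Computable₂ q)
    {q' : List ℕ × ℕ × ℕ → ℕ → Bool} (hq' : Computable₂ q') : Computable₂ (UA q q') := by
  have ht : Computable (fun x : (List ℕ × ℕ) × ℕ × ℕ => x.1.1.length - (x.2.1 + 1)) :=
    Primrec.nat_sub.to_comp.comp (Computable.list_length.comp (Computable.fst.comp Computable.fst))
      (Computable.succ.comp (Computable.fst.comp Computable.snd))
  have hu1 : Computable (fun t : ℕ => t.unpair.1) := Computable.fst.comp Computable.unpair
  have hu2 : Computable (fun t : ℕ => t.unpair.2.unpair.1) := computable_pos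
  have hu3 : Computable (fun t : ℕ => t.unpair.2.unpair.2) := computable_val
  refine Computable.nat_rec (f := fun x : List ℕ × ℕ => x.1.length) (g := fun _ => 0)
    (h := fun (x : List ℕ × ℕ) (y : ℕ × ℕ) =>
      cond (q' (jstr q x.1 (x.1.length - (y.1 + 1)).unpair.1, x.2,
        (x.1.length - (y.1 + 1)).unpair.2.unpair.1) (x.1.length - (y.1 + 1)).unpair.2.unpair.2)
        (x.1.length - (y.1 + 1)).unpair.2.unpair.1 y.2)
    (Computable.list_length.comp Computable.fst) (Computable.const 0) ?_
  refine Computable.cond (hq'.comp (Computable.pair ?_ (Computable.pair ?_ ?_)) ?_) ?_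
    (Computable.snd.comp Computable.snd)
  · exact (computable_jstr hq).comp (Computable.fst.comp Computable.fst) (hu1.comp ht)
  · exact Computable.snd.comp Computable.fst
  · exact hu2.comp ht
  · exact hu3.comp ht
  · exact hu2.comp ht

/-- The value is that of the first successful triple. -/
theorem UA_eq (q : List ℕ × ℕ → ℕ → Bool) (q' : List ℕ × ℕ × ℕ → ℕ → Bool) (ξ : List ℕ) (e u t0 : ℕ)
    (ht0 : t0 < ξ.length)
    (h0 : q' (jstr q ξ t0.unpair.1, e, t0.unpair.2.unpair.1) t0.unpair.2.unpair.2 = true)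
    (hall : ∀ t ≤ t0, q' (jstr q ξ t.unpair.1, e, t.unpair.2.unpair.1) t.unpair.2.unpair.2 = true →
      t.unpair.2.unpair.1 = u) : UA q q' ξ e = u := by
  have key : ∀ m, m ≤ ξ.length → ξ.length - m ≤ t0 → (Nat.rec 0 (fun m b =>
      cond (q' (jstr q ξ (ξ.length - (m + 1)).unpair.1, e,
        (ξ.length - (m + 1)).unpair.2.unpair.1) (ξ.length - (m + 1)).unpair.2.unpair.2)
        (ξ.length - (m + 1)).unpair.2.unpair.1 b) m : ℕ) = u := by
    intro m
    induction m with
    | zero => intro _ h; omega
    | succ m ih =>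
      intro hm hmt
      simp only
      by_cases hc : q' (jstr q ξ (ξ.length - (m + 1)).unpair.1, e,
        (ξ.length - (m + 1)).unpair.2.unpair.1) (ξ.length - (m + 1)).unpair.2.unpair.2 = true
      · rw [hc, cond_true]
        exact hall _ hmt hc
      · have hlt : ξ.length - m ≤ t0 := by
          by_contra hcon
          have heq : ξ.length - (m + 1) = t0 := by omega
          rw [heq] at hc
          exact hc h0
        rw [Bool.not_eq_true] at hc
        rw [hc, cond_false]
        exact ih (by omega) hlt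
  exact key ξ.length le_rfl (by omega)

/-- Martin's theorem (the easy direction): if no function computable from `X` dominates all
computable functions, then `X` is not high. -/
theorem not_high {X : Set ℕ} (hX : NonHigh (chi X)) : ¬ High X := by
  intro hH
  have hJ := isJump_jmp X
  have hJ1 := isJump_jmp ∅
  have hJ2 := isJump_jmp (jmp ∅)
  have hred := red_iff.mp (hH _ _ _ hJ hJ1 hJ2)
  -- the halting set
  have hK0 : ReIn ∅ {x | ((Denumerable.ofNat Code x.unpair.1).eval x.unpair.2).Dom} := by
    refine reIn_of_re (R := fun _ x => ∃ v, v ∈ (Denumerable.ofNat Code x.unpair.1).eval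
      x.unpair.2) ?_ (fun n => ?_)
    · refine RE.ex (p := fun (x : List ℕ × ℕ) (v : ℕ) =>
        v ∈ (Denumerable.ofNat Code x.2.unpair.1).eval x.2.unpair.2) ?_
      refine re_univ.comp (f := fun y : (List ℕ × ℕ) × ℕ => (y.1.2.unpair.1, y.1.2.unpair.2, y.2)) ?_
      exact Computable.pair ((Computable.fst.comp Computable.unpair).comp
        (Computable.snd.comp Computable.fst)) (Computable.pair
        ((Computable.snd.comp Computable.unpair).comp (Computable.snd.comp Computable.fst))
        Computable.snd)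
    · rw [Set.mem_ofPred_eq, Part.dom_iff_mem]
      exact ⟨fun h => ⟨0, h⟩, fun ⟨_, h⟩ => h⟩
  obtain ⟨r1, hr1, hr1'⟩ := hJ1.2 _ hK0
  -- the set of codes of partial functions which are not total
  have hTc : ReIn (jmp ∅) {e | ∃ n, ¬ ((Denumerable.ofNat Code e).eval n).Dom} := by
    have hp : RecIn (chi (jmp ∅)) (fun z => chi (jmp ∅) (r1 z)) :=
      (RecIn.refl _).comp (RecIn.of_computable hr1)
    refine ⟨_, tr_iff.mpr (Nat.RecursiveIn.rfind hp), fun e => ?_⟩
    have key : ∀ p : ℕ → ℕ, (Nat.rfind fun m => (fun m => decide (m = 0)) <$>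
        ((fun m => Part.some (p m)) m : Part ℕ)).Dom ↔ ∃ m, p m = 0 := by
      intro p
      constructor
      · intro hd
        obtain ⟨m, hm⟩ := Part.dom_iff_mem.mp hd
        have := (Nat.mem_rfind.mp hm).1
        exact ⟨m, by simpa using this⟩
      · rintro ⟨m, hm⟩
        exact Nat.rfind_dom.mpr ⟨m, by simpa using hm, fun {k} _ => by simp⟩
    refine Iff.trans ?_ (key (fun n => chi (jmp ∅) (r1 (Nat.pair e n)))).symm
    rw [Set.mem_ofPred_eq]
    refine exists_congr fun n => ?_
    have h1 := hr1' (Nat.pair e n)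
    simp only [Set.mem_ofPred_eq, Nat.unpair_pair] at h1
    rw [h1]
    unfold chi
    split_ifs with h
    · simp [h]
    · simp [h]
  obtain ⟨r2, hr2, hr2'⟩ := hJ2.2 _ hTc
  -- the function `u`
  obtain ⟨u, hu⟩ : ∃ u : ℕ → ℕ, u = fun e => chi (jmp (jmp ∅)) (r2 e) := ⟨_, rfl⟩
  have hurec : RecIn (chi (jmp X)) u := by
    rw [hu]
    exact hred.comp (RecIn.of_computable hr2)
  have hu1 : ∀ e, (∃ n, ¬ ((Denumerable.ofNat Code e).eval n).Dom) → u e = 1 := by
    intro e he
    have : r2 e ∈ jmp (jmp ∅) := (hr2' e).mp he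
    rw [hu]
    simp [chi, this]
  have hu0 : ∀ e, (∀ n, ((Denumerable.ofNat Code e).eval n).Dom) → u e = 0 := by
    intro e he
    have : ¬ r2 e ∈ jmp (jmp ∅) := by
      intro h
      obtain ⟨n, hn⟩ := (hr2' e).mpr h
      exact hn (he n)
    rw [hu]
    simp [chi, this]
  obtain ⟨c, hc⟩ := normal_form hurec
  obtain ⟨q', hq', hqc'⟩ := RE.of_conv c
  obtain ⟨q, hq, hqc⟩ := re_jmp
  have hJX : ∀ n, n ∈ jmp X ↔ ∃ k w, q (ini (chi X) k, n) w = true := by
    intro n
    refine exists_congr fun k => ?_
    exact hqc (ini (chi X) k, n)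
  have hlim : ∀ e, ∃ s0, ∀ s ≥ s0, UA q q' (ini (chi X) s) e = u e := by
    intro e
    obtain ⟨k0, hk0⟩ := (hc e (u e)).mp (by simp)
    obtain ⟨w0, hw0⟩ := (hqc' (ini (chi (jmp X)) k0, e, u e)).mp hk0
    obtain ⟨s0, hs0⟩ := jstr_lim hJX (Nat.pair k0 (Nat.pair (u e) w0))
    refine ⟨max s0 (Nat.pair k0 (Nat.pair (u e) w0) + 1), fun s hs => ?_⟩
    refine UA_eq q q' _ e (u e) (Nat.pair k0 (Nat.pair (u e) w0)) (by rw [length_ini]; omega) ?_ ?_
    · simp only [Nat.unpair_pair]
      rw [hs0 s (by omega) k0 (Nat.left_le_pair _ _)]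
      exact hw0
    · intro t ht h
      rw [hs0 s (by omega) _ ((Nat.unpair_left_le t).trans ht)] at h
      have h1 := (hqc' (ini (chi (jmp X)) t.unpair.1, e, t.unpair.2.unpair.1)).mpr ⟨_, h⟩
      have h2 := (hc e t.unpair.2.unpair.1).mpr ⟨_, h1⟩
      simpa using h2
  -- the dominating function
  obtain ⟨h0, hh0, hR⟩ := search_re (g := chi X) (β := List (ℕ × ℕ))
    (R := fun ξ n l => ∀ e < n + 1, n ≤ (l.getD e (0, 0)).1 ∧ (l.getD e (0, 0)).1 ≤ ξ.length ∧
      ((l.getD e (0, 0)).2 ∈ (Denumerable.ofNat Code e).eval n ∨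
        UA q q' (ξ.take (l.getD e (0, 0)).1) e = 1)) (by
      refine RE.forall_lt (p := fun (x : List ℕ × ℕ × List (ℕ × ℕ)) (e : ℕ) =>
        x.2.1 ≤ (x.2.2.getD e (0, 0)).1 ∧ (x.2.2.getD e (0, 0)).1 ≤ x.1.length ∧
        ((x.2.2.getD e (0, 0)).2 ∈ (Denumerable.ofNat Code e).eval x.2.1 ∨
        UA q q' (x.1.take (x.2.2.getD e (0, 0)).1) e = 1)) ?_
        (Computable.succ.comp (Computable.fst.comp Computable.snd))
      have hget : Computable (fun y : (List ℕ × ℕ × List (ℕ × ℕ)) × ℕ =>
          y.1.2.2.getD y.2 (0, 0)) :=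
        (Primrec.list_getD (0, 0)).to_comp.comp
          (Computable.snd.comp (Computable.snd.comp Computable.fst)) Computable.snd
      refine RE.and ?_ (RE.and ?_ (RE.or ?_ ?_))
      · refine (RE.of_bool (f := fun y : (List ℕ × ℕ × List (ℕ × ℕ)) × ℕ =>
          decide (y.1.2.1 ≤ (y.1.2.2.getD y.2 (0, 0)).1)) ?_).of_eq fun y => by simp
        exact Primrec.nat_le.decide.to_comp.comp
          (Computable.fst.comp (Computable.snd.comp Computable.fst)) (Computable.fst.comp hget)
      · refine (RE.of_bool (f := fun y : (List ℕ × ℕ × List (ℕ × ℕ)) × ℕ =>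
          decide ((y.1.2.2.getD y.2 (0, 0)).1 ≤ y.1.1.length)) ?_).of_eq fun y => by simp
        exact Primrec.nat_le.decide.to_comp.comp (Computable.fst.comp hget)
          (Computable.list_length.comp (Computable.fst.comp Computable.fst))
      · exact re_univ.comp (f := fun y : (List ℕ × ℕ × List (ℕ × ℕ)) × ℕ =>
          (y.2, y.1.2.1, (y.1.2.2.getD y.2 (0, 0)).2))
          (Computable.pair Computable.snd (Computable.pair
            (Computable.fst.comp (Computable.snd.comp Computable.fst)) (Computable.snd.comp hget)))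
      · refine RE.eq ((computable_UA hq hq').comp ?_ Computable.snd) (Computable.const 1)
        exact Primrec.list_take.to_comp.comp (Computable.fst.comp hget)
          (Computable.fst.comp Computable.fst)) (by
      intro n
      have hex : ∀ e, ∃ p : ℕ × ℕ, n ≤ p.1 ∧ (p.2 ∈ (Denumerable.ofNat Code e).eval n ∨
          UA q q' (ini (chi X) p.1) e = 1) := by
        intro e
        by_cases hd : ((Denumerable.ofNat Code e).eval n).Dom
        · obtain ⟨v, hv⟩ := Part.dom_iff_mem.mp hd
          exact ⟨(n, v), le_rfl, Or.inl hv⟩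
        · obtain ⟨s0, hs0⟩ := hlim e
          refine ⟨(max n s0, 0), le_max_left _ _, Or.inr ?_⟩
          rw [hs0 _ (le_max_right _ _)]
          exact hu1 e ⟨n, hd⟩
      choose p hp1 hp2 using hex
      refine ⟨∑ e ∈ Finset.range (n + 1), (p e).1, (List.range (n + 1)).map p, fun e he => ?_⟩
      have hget : ((List.range (n + 1)).map p).getD e (0, 0) = p e := by
        rw [List.getD_eq_getElem?_getD, List.getElem?_map, List.getElem?_range he]
        rfl
      have hle : (p e).1 ≤ ∑ e ∈ Finset.range (n + 1), (p e).1 :=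
        Finset.single_le_sum (f := fun e => (p e).1) (fun _ _ => Nat.zero_le _)
          (Finset.mem_range.mpr he)
      rw [hget, length_ini]
      refine ⟨hp1 e, hle, (hp2 e).imp id fun h => ?_⟩
      have : (ini (chi X) (∑ e ∈ Finset.range (n + 1), (p e).1)).take (p e).1 =
          ini (chi X) (p e).1 := by
        obtain ⟨ρ, hρ⟩ := ini_prefix (chi X) hle
        rw [← hρ]
        simp
      rw [this]
      exact h)
  obtain ⟨f, hf, hfN⟩ := hX _ hh0
  obtain ⟨c0, hc0⟩ := Code.exists_code.mp (Partrec.nat_iff.mp hf)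
  have htot : u (encode c0) = 0 := by
    refine hu0 _ fun n => ?_
    rw [Denumerable.ofNat_encode, hc0]
    simp
  obtain ⟨s0, hs0⟩ := hlim (encode c0)
  obtain ⟨m, hm, hlt⟩ := hfN (max (encode c0) s0)
  obtain ⟨k, hk⟩ := hR m
  obtain ⟨h1, h2, h3⟩ := hk (encode c0) (by omega)
  generalize hp : (h0 m).getD (encode c0) (0, 0) = p at h1 h2 h3
  rw [length_ini] at h2
  have htake : (ini (chi X) k).take p.1 = ini (chi X) p.1 := by
    obtain ⟨ρ, hρ⟩ := ini_prefix (chi X) h2
    rw [← hρ]
    simp
  rw [htake, hs0 p.1 (by omega), htot, Denumerable.ofNat_encode, hc0] at h3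
  have h4 : p.2 = f m := by
    rcases h3 with h3 | h3
    · simpa using h3
    · cases h3
  have h5 : p.2 ≤ encode (h0 m) := by
    by_cases hlen : encode c0 < (h0 m).length
    · have hmem : p ∈ h0 m := by
        rw [List.getD_eq_getElem _ _ hlen] at hp
        rw [← hp]
        exact List.getElem_mem hlen
      exact (Nat.right_le_pair p.1 p.2).trans (encode_le_of_mem hmem)
    · rw [List.getD_eq_default _ _ (by omega)] at hp
      rw [← hp]
      exact Nat.zero_le _
  omega

end Pool.Agent.Helper64.SB
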