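import Pool.Agent.Helper64.SB.Defs

/-!
Basic facts on formulas: dependence on the free variables, Gödel numbers, derived connectives.
-/

namespace Pool.Agent.Helper64.SB

open Encodable

section basic

variable {M : Type} {S : Str M}

theorem Tm.eval_congr {t : Tm} {v w : ℕ → M} (h : ∀ i, t.occ i → v i = w i) :
    t.eval S v = t.eval S w := by
  induction t with
  | var i => exact h i rfl
  | fn f n ts ih =>
    simp only [Tm.eval]
    congr 1
    funext k
    exact ih k (fun i hi => h i ⟨k, hi⟩)

theorem Fm.sat_congr {φ : Fm} {v w : ℕ → M} (h : ∀ i, φ.free i → v i = w i) :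
    φ.sat S v ↔ φ.sat S w := by
  induction φ generalizing v w with
  | eq t u =>
    simp only [Fm.sat]
    rw [Tm.eval_congr (fun i hi => h i (Or.inl hi)), Tm.eval_congr (fun i hi => h i (Or.inr hi))]
  | rel r n ts =>
    simp only [Fm.sat]
    have : (fun k => (ts k).eval S v) = fun k => (ts k).eval S w := by
      funext k
      exact Tm.eval_congr (fun i hi => h i ⟨k, hi⟩)
    rw [this]
  | fls => exact Iff.rfl
  | imp φ ψ ih1 ih2 =>
    simp only [Fm.sat]
    rw [ih1 (fun i hi => h i (Or.inl hi)), ih2 (fun i hi => h i (Or.inr hi))]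
  | all j φ ih =>
    simp only [Fm.sat]
    refine forall_congr' fun a => ih fun i hi => ?_
    by_cases hij : i = j
    · subst hij; simp
    · rw [Function.update_of_ne hij, Function.update_of_ne hij]
      exact h i ⟨hij, hi⟩

end basic

theorem le_encode_of_mem {l : List ℕ} {a : ℕ} (h : a ∈ l) : a ≤ encode l := by
  induction l with
  | nil => cases h
  | cons b l ih =>
    rw [Encodable.encode_list_cons]
    rcases List.mem_cons.mp h with rfl | h
    · exact (Nat.left_le_pair _ _).trans (Nat.le_succ _)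
    · exact ((ih h).trans (Nat.right_le_pair _ _)).trans (Nat.le_succ _)

theorem Tm.occ_le {t : Tm} {i : ℕ} (h : t.occ i) : i ≤ t.code := by
  induction t with
  | var j =>
    simp only [Tm.occ] at h
    simp only [Tm.code]
    omega
  | fn f n ts ih =>
    obtain ⟨k, hk⟩ := h
    have h1 := ih k hk
    have h2 : (ts k).code ≤ encode (List.ofFn fun k : Fin n => (ts k).code) :=
      le_encode_of_mem ((List.mem_ofFn' _ _).mpr ⟨k, rfl⟩)
    have h3 := Nat.right_le_pair f (encode (List.ofFn fun k : Fin n => (ts k).code))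
    simp only [Tm.code]
    omega

theorem Fm.free_le {φ : Fm} {i : ℕ} (h : φ.free i) : i ≤ φ.code := by
  induction φ with
  | eq t u =>
    have h1 := Nat.left_le_pair t.code u.code
    have h2 := Nat.right_le_pair t.code u.code
    simp only [Fm.code]
    rcases h with h | h
    · have := Tm.occ_le h
      omega
    · have := Tm.occ_le h
      omega
  | rel r n ts =>
    obtain ⟨k, hk⟩ := h
    have h1 := Tm.occ_le hk
    have h2 : (ts k).code ≤ encode (List.ofFn fun k : Fin n => (ts k).code) :=
      le_encode_of_mem ((List.mem_ofFn' _ _).mpr ⟨k, rfl⟩)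
    have h3 := Nat.right_le_pair r (encode (List.ofFn fun k : Fin n => (ts k).code))
    simp only [Fm.code]
    omega
  | fls => exact absurd h (by simp [Fm.free])
  | imp φ ψ ih1 ih2 =>
    have h1 := Nat.left_le_pair φ.code ψ.code
    have h2 := Nat.right_le_pair φ.code ψ.code
    simp only [Fm.code]
    rcases h with h | h
    · have := ih1 h
      omega
    · have := ih2 h
      omega
  | all j φ ih =>
    have h1 := Nat.right_le_pair j φ.code
    have h2 := ih h.2
    simp only [Fm.code]
    omega

theorem ofFn_code_inj {n m : ℕ} {ts : Fin n → Tm} {us : Fin m → Tm}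
    (h : (List.ofFn fun k => (ts k).code) = List.ofFn fun k => (us k).code) :
    ∃ e : n = m, ∀ k, (ts k).code = (us (Fin.cast e k)).code := by
  have h1 := congrArg List.length h
  simp only [List.length_ofFn] at h1
  subst h1
  refine ⟨rfl, fun k => ?_⟩
  have := congrFun (List.ofFn_injective h) k
  exact this

theorem Tm.code_inj : Function.Injective Tm.code := by
  intro t
  induction t with
  | var i =>
    intro u h
    cases u with
    | var j =>
      simp only [Tm.code] at h
      rw [show i = j by omega]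
    | fn f n ts =>
      simp only [Tm.code] at h
      omega
  | fn f n ts ih =>
    intro u h
    cases u with
    | var j =>
      simp only [Tm.code] at h
      omega
    | fn g m us =>
      simp only [Tm.code] at h
      have h1 : Nat.pair f (encode (List.ofFn fun k : Fin n => (ts k).code)) =
        Nat.pair g (encode (List.ofFn fun k : Fin m => (us k).code)) := by omega
      rw [Nat.pair_eq_pair] at h1
      obtain ⟨rfl, h2⟩ := h1
      obtain ⟨rfl, h3⟩ := ofFn_code_inj (Encodable.encode_injective h2)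
      congr 1
      funext k
      exact ih k (h3 k)

theorem Fm.code_inj : Function.Injective Fm.code := by
  intro φ
  induction φ with
  | eq t u =>
    intro ψ h
    cases ψ with
    | eq t' u' =>
      simp only [Fm.code] at h
      have h1 : Nat.pair t.code u.code = Nat.pair t'.code u'.code := by omega
      rw [Nat.pair_eq_pair] at h1
      rw [Tm.code_inj h1.1, Tm.code_inj h1.2]
    | _ => simp only [Fm.code] at h; omega
  | rel r n ts =>
    intro ψ h
    cases ψ with
    | rel g m us =>
      simp only [Fm.code] at h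
      have h1 : Nat.pair r (encode (List.ofFn fun k : Fin n => (ts k).code)) =
        Nat.pair g (encode (List.ofFn fun k : Fin m => (us k).code)) := by omega
      rw [Nat.pair_eq_pair] at h1
      obtain ⟨rfl, h2⟩ := h1
      obtain ⟨rfl, h3⟩ := ofFn_code_inj (Encodable.encode_injective h2)
      congr 1
      funext k
      exact Tm.code_inj (h3 k)
    | _ => simp only [Fm.code] at h; omega
  | fls =>
    intro ψ h
    cases ψ with
    | fls => rfl
    | _ => simp only [Fm.code] at h; omega
  | imp φ1 φ2 ih1 ih2 =>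
    intro ψ h
    cases ψ with
    | imp ψ1 ψ2 =>
      simp only [Fm.code] at h
      have h1 : Nat.pair φ1.code φ2.code = Nat.pair ψ1.code ψ2.code := by omega
      rw [Nat.pair_eq_pair] at h1
      rw [ih1 h1.1, ih2 h1.2]
    | _ => simp only [Fm.code] at h; omega
  | all i φ ih =>
    intro ψ h
    cases ψ with
    | all j ψ =>
      simp only [Fm.code] at h
      have h1 : Nat.pair i φ.code = Nat.pair j ψ.code := by omega
      rw [Nat.pair_eq_pair] at h1
      rw [h1.1, ih h1.2]
    | _ => simp only [Fm.code] at h; omega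

namespace Fm

/-- Negation. -/
def neg (φ : Fm) : Fm := .imp φ .fls

/-- Conjunction. -/
def and (φ ψ : Fm) : Fm := neg (.imp φ (neg ψ))

/-- Disjunction. -/
def or (φ ψ : Fm) : Fm := .imp (neg φ) ψ

/-- Existential quantification. -/
def ex (i : ℕ) (φ : Fm) : Fm := neg (.all i (neg φ))

variable {M : Type} {S : Str M} {v : ℕ → M} {L : Lang}

@[simp] theorem sat_fls : Fm.fls.sat S v ↔ False := Iff.rfl

@[simp] theorem sat_imp {φ ψ : Fm} : (Fm.imp φ ψ).sat S v ↔ (φ.sat S v → ψ.sat S v) := Iff.rfl

@[simp] theorem sat_all {φ : Fm} {i : ℕ} :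
    (Fm.all i φ).sat S v ↔ ∀ a, φ.sat S (Function.update v i a) := Iff.rfl

@[simp] theorem sat_neg {φ : Fm} : φ.neg.sat S v ↔ ¬ φ.sat S v := Iff.rfl

@[simp] theorem sat_and {φ ψ : Fm} : (φ.and ψ).sat S v ↔ φ.sat S v ∧ ψ.sat S v := by
  simp only [and, sat_neg, sat_imp]
  tauto

@[simp] theorem sat_or {φ ψ : Fm} : (φ.or ψ).sat S v ↔ φ.sat S v ∨ ψ.sat S v := by
  simp only [or, sat_neg, sat_imp]
  tauto

@[simp] theorem sat_ex {φ : Fm} {i : ℕ} :
    (φ.ex i).sat S v ↔ ∃ a, φ.sat S (Function.update v i a) := by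
  simp only [ex, sat_neg, sat_all]
  push Not
  rfl

@[simp] theorem wf_fls : Fm.fls.wf L := trivial
@[simp] theorem wf_imp {φ ψ : Fm} : (Fm.imp φ ψ).wf L ↔ φ.wf L ∧ ψ.wf L := Iff.rfl
@[simp] theorem wf_all {φ : Fm} {i : ℕ} : (Fm.all i φ).wf L ↔ φ.wf L := Iff.rfl
@[simp] theorem wf_neg {φ : Fm} : φ.neg.wf L ↔ φ.wf L := by simp [neg]
@[simp] theorem wf_and {φ ψ : Fm} : (φ.and ψ).wf L ↔ φ.wf L ∧ ψ.wf L := by simp [and]
@[simp] theorem wf_or {φ ψ : Fm} : (φ.or ψ).wf L ↔ φ.wf L ∧ ψ.wf L := by simp [or]
@[simp] theorem wf_ex {φ : Fm} {i : ℕ} : (φ.ex i).wf L ↔ φ.wf L := by simp [ex]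

@[simp] theorem free_fls {i : ℕ} : Fm.fls.free i ↔ False := Iff.rfl
@[simp] theorem free_imp {φ ψ : Fm} {i : ℕ} : (Fm.imp φ ψ).free i ↔ φ.free i ∨ ψ.free i := Iff.rfl
@[simp] theorem free_all {φ : Fm} {i j : ℕ} : (Fm.all j φ).free i ↔ i ≠ j ∧ φ.free i := Iff.rfl
@[simp] theorem free_neg {φ : Fm} {i : ℕ} : φ.neg.free i ↔ φ.free i := by simp [neg]
@[simp] theorem free_and {φ ψ : Fm} {i : ℕ} : (φ.and ψ).free i ↔ φ.free i ∨ ψ.free i := by
  simp [and]
@[simp] theorem free_or {φ ψ : Fm} {i : ℕ} : (φ.or ψ).free i ↔ φ.free i ∨ ψ.free i := by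
  simp [or]
@[simp] theorem free_ex {φ : Fm} {i j : ℕ} : (φ.ex j).free i ↔ i ≠ j ∧ φ.free i := by simp [ex]

end Fm

end Pool.Agent.Helper64.SB
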