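import Mathlib

/-!
Oracle computations (Mathlib's `Nat.RecursiveIn`): normal form by finite initial segments of the
oracle, and a search principle.
-/

namespace Pool.Agent.Helper64.SB

open Nat.Partrec (Code)
open Encodable

/-- The first `k` values of `g`. -/
def ini (g : ℕ → ℕ) (k : ℕ) : List ℕ := (List.range k).map g

@[simp] theorem length_ini (g : ℕ → ℕ) (k : ℕ) : (ini g k).length = k := by simp [ini]

theorem getElem?_ini (g : ℕ → ℕ) (k n : ℕ) : (ini g k)[n]? = if n < k then some (g n) else none := by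
  unfold ini
  split_ifs with h
  · simp [h]
  · simp [h]

theorem ini_succ (g : ℕ → ℕ) (k : ℕ) : ini g (k + 1) = ini g k ++ [g k] := by
  simp [ini, List.range_succ]

theorem ini_prefix (g : ℕ → ℕ) {k l : ℕ} (h : k ≤ l) : ini g k <+: ini g l := by
  induction h with
  | refl => exact List.prefix_rfl
  | step h ih =>
    rw [ini_succ]
    exact ih.trans (List.prefix_append _ _)

theorem prefix_ini {g : ℕ → ℕ} {l : ℕ} {σ : List ℕ} (h : σ <+: ini g l) : σ = ini g σ.length := by
  obtain ⟨τ, hτ⟩ := h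
  have hle : σ.length ≤ l := by
    have := congrArg List.length hτ
    simp at this
    omega
  have h1 : σ = (ini g l).take σ.length := by rw [← hτ]; simp
  have h2 : ini g σ.length = (ini g l).take σ.length := by
    obtain ⟨ρ, hρ⟩ := ini_prefix g hle
    rw [← hρ]; simp
  rw [h2, ← h1]

/-- Normal form of a partial function relative to the total oracle `g`. -/
def HasNF (g : ℕ → ℕ) (f : ℕ →. ℕ) : Prop :=
  ∃ F : List ℕ → ℕ →. ℕ, Partrec₂ F ∧ (∀ σ τ, σ <+: τ → ∀ n v, v ∈ F σ n → v ∈ F τ n) ∧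
    ∀ n v, v ∈ f n ↔ ∃ k, v ∈ F (ini g k) n

theorem HasNF.of_computable {g : ℕ → ℕ} {h : ℕ → ℕ} (hh : Computable h) :
    HasNF g (fun n => Part.some (h n)) := by
  refine ⟨fun _ n => Part.some (h n), (hh.comp Computable.snd).partrec, fun _ _ _ n v h => h, ?_⟩
  intro n v
  simp

theorem prefix_getElem? {σ τ : List ℕ} (h : σ <+: τ) {n v : ℕ} (hv : σ[n]? = some v) :
    τ[n]? = some v := by
  obtain ⟨ρ, rfl⟩ := h
  rw [List.getElem?_append_left]
  · exact hv
  · by_contra hn
    rw [List.getElem?_eq_none (by omega)] at hv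
    cases hv

theorem HasNF.oracle (g : ℕ → ℕ) : HasNF g (fun n => Part.some (g n)) := by
  refine ⟨fun σ n => Part.ofOption σ[n]?, ?_, ?_, ?_⟩
  · exact (Primrec.list_getElem?.to_comp (α := List ℕ)).ofOption
  · intro σ τ h n v hv
    rw [Part.mem_ofOption] at hv ⊢
    exact prefix_getElem? h hv
  · intro n v
    simp only [Part.mem_some_iff, Part.mem_ofOption, getElem?_ini, Option.mem_def]
    constructor
    · rintro rfl
      exact ⟨n + 1, by simp⟩
    · rintro ⟨k, hk⟩
      split_ifs at hk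
      simpa using hk.symm

theorem HasNF.pair {g : ℕ → ℕ} {f h : ℕ →. ℕ} (hf : HasNF g f) (hh : HasNF g h) :
    HasNF g (fun n => Nat.pair <$> f n <*> h n) := by
  obtain ⟨F, F1, F2, F3⟩ := hf
  obtain ⟨H, H1, H2, H3⟩ := hh
  have key : ∀ (x y : Part ℕ) (v : ℕ), v ∈ (Nat.pair <$> x <*> y) ↔
      ∃ a ∈ x, ∃ b ∈ y, Nat.pair a b = v := by
    intro x y v
    simp [Seq.seq]
  refine ⟨fun σ n => Nat.pair <$> F σ n <*> H σ n, ?_, ?_, ?_⟩
  · have := (F1.bind (σ := ℕ) (g := fun (p : List ℕ × ℕ) (a : ℕ) => (H p.1 p.2).map (Nat.pair a))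
      ((H1.comp (Computable.fst.comp Computable.fst) (Computable.snd.comp Computable.fst)).map
        (Primrec₂.natPair.to_comp.comp (Computable.snd.comp Computable.fst) Computable.snd)))
    refine this.of_eq fun p => ?_
    ext v
    simp [Seq.seq]
  · intro σ τ h n v hv
    rw [key] at hv ⊢
    obtain ⟨a, ha, b, hb, rfl⟩ := hv
    exact ⟨a, F2 σ τ h n a ha, b, H2 σ τ h n b hb, rfl⟩
  · intro n v
    rw [key]
    constructor
    · rintro ⟨a, ha, b, hb, rfl⟩
      obtain ⟨k, hk⟩ := (F3 n a).mp ha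
      obtain ⟨l, hl⟩ := (H3 n b).mp hb
      refine ⟨max k l, ?_⟩
      rw [key]
      exact ⟨a, F2 _ _ (ini_prefix g (le_max_left k l)) n a hk, b,
        H2 _ _ (ini_prefix g (le_max_right k l)) n b hl, rfl⟩
    · rintro ⟨k, hk⟩
      rw [key] at hk
      obtain ⟨a, ha, b, hb, rfl⟩ := hk
      exact ⟨a, (F3 n a).mpr ⟨k, ha⟩, b, (H3 n b).mpr ⟨k, hb⟩, rfl⟩

theorem HasNF.comp {g : ℕ → ℕ} {f h : ℕ →. ℕ} (hf : HasNF g f) (hh : HasNF g h) :
    HasNF g (fun n => h n >>= f) := by
  obtain ⟨F, F1, F2, F3⟩ := hf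
  obtain ⟨H, H1, H2, H3⟩ := hh
  have key : ∀ (x : Part ℕ) (y : ℕ → Part ℕ) (v : ℕ), v ∈ (x >>= y) ↔ ∃ a ∈ x, v ∈ y a := by
    intro x y v
    simp
  refine ⟨fun σ n => H σ n >>= F σ, ?_, ?_, ?_⟩
  · exact H1.bind (F1.comp (Computable.fst.comp Computable.fst) Computable.snd)
  · intro σ τ h n v hv
    obtain ⟨a, ha, hb⟩ := (key _ _ _).mp hv
    exact (key _ _ _).mpr ⟨a, H2 σ τ h n a ha, F2 σ τ h a v hb⟩
  · intro n v
    refine (key _ _ _).trans ?_
    constructor
    · rintro ⟨a, ha, hb⟩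
      obtain ⟨k, hk⟩ := (H3 n a).mp ha
      obtain ⟨l, hl⟩ := (F3 a v).mp hb
      exact ⟨max k l, (key _ _ _).mpr ⟨a, H2 _ _ (ini_prefix g (le_max_left k l)) n a hk,
        F2 _ _ (ini_prefix g (le_max_right k l)) a v hl⟩⟩
    · rintro ⟨k, hk⟩
      obtain ⟨a, ha, hb⟩ := (key _ _ _).mp hk
      exact ⟨a, (H3 n a).mpr ⟨k, ha⟩, (F3 a v).mpr ⟨k, hb⟩⟩

theorem HasNF.prec {g : ℕ → ℕ} {f h : ℕ →. ℕ} (hf : HasNF g f) (hh : HasNF g h) :
    HasNF g (fun p => let (a, n) := Nat.unpair p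
      n.rec (f a) fun y IH => do
          let i ← IH
          h (Nat.pair a (Nat.pair y i))) := by
  obtain ⟨F, F1, F2, F3⟩ := hf
  obtain ⟨H, H1, H2, H3⟩ := hh
  refine ⟨fun σ p => (p.unpair.2).rec (F σ p.unpair.1) fun y IH =>
    IH.bind fun i => H σ (Nat.pair p.unpair.1 (Nat.pair y i)), ?_, ?_, ?_⟩
  · refine Partrec.nat_rec (α := List ℕ × ℕ) (f := fun q => q.2.unpair.2)
      (g := fun q => F q.1 q.2.unpair.1)
      (h := fun q (x : ℕ × ℕ) => H q.1 (Nat.pair q.2.unpair.1 (Nat.pair x.1 x.2))) ?_ ?_ ?_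
    · exact (Computable.snd.comp Computable.unpair).comp Computable.snd
    · exact F1.comp Computable.fst ((Computable.fst.comp Computable.unpair).comp Computable.snd)
    · refine H1.comp (Computable.fst.comp Computable.fst) ?_
      refine Primrec₂.natPair.to_comp.comp
        ((Computable.fst.comp Computable.unpair).comp (Computable.snd.comp Computable.fst)) ?_
      exact Primrec₂.natPair.to_comp.comp (Computable.fst.comp Computable.snd)
        (Computable.snd.comp Computable.snd)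
  · intro σ τ h p v
    simp only
    generalize p.unpair.2 = n
    generalize p.unpair.1 = a
    induction n generalizing v with
    | zero => exact F2 σ τ h a v
    | succ n ih =>
      simp only [Part.mem_bind_iff]
      rintro ⟨i, hi, hv⟩
      exact ⟨i, ih i hi, H2 σ τ h _ v hv⟩
  · intro p v
    simp only
    generalize p.unpair.2 = n
    generalize p.unpair.1 = a
    induction n generalizing v with
    | zero => exact F3 a v
    | succ n ih =>
      simp only [Part.bind_eq_bind, Part.mem_bind_iff]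
      have hmono : ∀ k l, k ≤ l → ∀ i, i ∈ (n.rec (F (ini g k) a) fun y IH =>
          IH.bind fun i => H (ini g k) (Nat.pair a (Nat.pair y i)) : Part ℕ) →
          i ∈ (n.rec (F (ini g l) a) fun y IH =>
          IH.bind fun i => H (ini g l) (Nat.pair a (Nat.pair y i)) : Part ℕ) := by
        intro k l hkl
        clear ih
        induction n with
        | zero => exact fun i hi => F2 _ _ (ini_prefix g hkl) a i hi
        | succ n ihn =>
          intro i
          simp only [Part.mem_bind_iff]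
          rintro ⟨j, hj, hv⟩
          exact ⟨j, ihn j hj, H2 _ _ (ini_prefix g hkl) _ i hv⟩
      constructor
      · rintro ⟨i, hi, hv⟩
        obtain ⟨k, hk⟩ := (ih i).mp hi
        obtain ⟨l, hl⟩ := (H3 _ v).mp hv
        exact ⟨max k l, i, hmono k _ (le_max_left k l) i hk,
          H2 _ _ (ini_prefix g (le_max_right k l)) _ v hl⟩
      · rintro ⟨k, i, hi, hv⟩
        exact ⟨i, (ih i).mpr ⟨k, hi⟩, (H3 _ v).mpr ⟨k, hv⟩⟩

theorem HasNF.rfind {g : ℕ → ℕ} {f : ℕ →. ℕ} (hf : HasNF g f) :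
    HasNF g (fun a => Nat.rfind fun n => (fun m => m = 0) <$> f (Nat.pair a n)) := by
  obtain ⟨F, F1, F2, F3⟩ := hf
  have key : ∀ (x : ℕ → Part ℕ) (v : ℕ),
      v ∈ (Nat.rfind fun n => (fun m => decide (m = 0)) <$> x n) ↔
      0 ∈ x v ∧ ∀ m < v, ∃ w ∈ x m, w ≠ 0 := by
    intro x v
    refine Nat.mem_rfind.trans ?_
    simp
  refine ⟨fun σ a => Nat.rfind fun n => (fun m => decide (m = 0)) <$> F σ (Nat.pair a n),
    ?_, ?_, ?_⟩
  · refine Partrec.rfind (p := fun q : List ℕ × ℕ => fun n =>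
      (fun m => decide (m = 0)) <$> F q.1 (Nat.pair q.2 n)) ?_
    have h1 : Partrec₂ fun (q : List ℕ × ℕ) (n : ℕ) => F q.1 (Nat.pair q.2 n) :=
      F1.comp (Computable.fst.comp Computable.fst)
        (Primrec₂.natPair.to_comp.comp (Computable.snd.comp Computable.fst) Computable.snd)
    exact h1.map ((Primrec.eq.decide.comp Primrec.snd (Primrec.const 0)).to_comp)
  · intro σ τ h a v hv
    obtain ⟨h0, h1⟩ := (key _ _).mp hv
    refine (key _ _).mpr ⟨F2 σ τ h _ _ h0, fun m hm => ?_⟩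
    obtain ⟨w, hw, hw0⟩ := h1 m hm
    exact ⟨w, F2 σ τ h _ _ hw, hw0⟩
  · intro a v
    refine (key _ _).trans ?_
    constructor
    · rintro ⟨h0, h1⟩
      obtain ⟨k0, hk0⟩ := (F3 _ _).mp h0
      have h2 : ∀ u ≤ v, ∃ K, k0 ≤ K ∧ ∀ m < u, ∃ w ∈ F (ini g K) (Nat.pair a m), w ≠ 0 := by
        intro u
        induction u with
        | zero => exact fun _ => ⟨k0, le_rfl, fun m hm => absurd hm (by omega)⟩
        | succ u ih =>
          intro hu
          obtain ⟨K, hK, h3⟩ := ih (by omega)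
          obtain ⟨w, hw, hw0⟩ := h1 u (by omega)
          obtain ⟨l, hl⟩ := (F3 _ _).mp hw
          refine ⟨max K l, by omega, fun m hm => ?_⟩
          rcases Nat.lt_succ_iff_lt_or_eq.mp hm with hm | rfl
          · obtain ⟨w', hw', hw0'⟩ := h3 m hm
            exact ⟨w', F2 _ _ (ini_prefix g (le_max_left K l)) _ _ hw', hw0'⟩
          · exact ⟨w, F2 _ _ (ini_prefix g (le_max_right K l)) _ _ hl, hw0⟩
      obtain ⟨K, hK, h3⟩ := h2 v le_rfl
      exact ⟨K, (key _ _).mpr ⟨F2 _ _ (ini_prefix g hK) _ _ hk0, h3⟩⟩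
    · rintro ⟨k, hk⟩
      obtain ⟨h0, h1⟩ := (key _ _).mp hk
      refine ⟨(F3 _ _).mpr ⟨k, h0⟩, fun m hm => ?_⟩
      obtain ⟨w, hw, hw0⟩ := h1 m hm
      exact ⟨w, (F3 _ _).mpr ⟨k, hw⟩, hw0⟩

/-- `Conv c σ n v`: the partial recursive function with code `c`, applied to some initial segment
of `σ` and the input `n`, gives `v`. -/
def Conv (c : Code) (σ : List ℕ) (n v : ℕ) : Prop :=
  ∃ τ, τ <+: σ ∧ v ∈ c.eval (Nat.pair (encode τ) n)

theorem Conv.mono {c : Code} {σ τ : List ℕ} {n v : ℕ} (h : Conv c σ n v) (hst : σ <+: τ) :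
    Conv c τ n v := by
  obtain ⟨ρ, h1, h2⟩ := h
  exact ⟨ρ, h1.trans hst, h2⟩

/-- Normal form theorem. -/
theorem normal_form {g : ℕ → ℕ} {f : ℕ →. ℕ} (h : Nat.RecursiveIn {(g : ℕ →. ℕ)} f) :
    ∃ c : Code, ∀ n v, v ∈ f n ↔ ∃ k, Conv c (ini g k) n v := by
  have h1 : HasNF g f := by
    induction h with
    | zero => exact HasNF.of_computable (Computable.const 0)
    | succ => exact HasNF.of_computable Computable.succ
    | left => exact HasNF.of_computable (Computable.fst.comp Computable.unpair)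
    | right => exact HasNF.of_computable (Computable.snd.comp Computable.unpair)
    | oracle f hf =>
      rw [Set.mem_singleton_iff] at hf
      subst hf
      exact HasNF.oracle g
    | pair _ _ ihf ihg => exact ihf.pair ihg
    | comp _ _ ihf ihg => exact ihf.comp ihg
    | prec _ _ ihf ihg => exact ihf.prec ihg
    | rfind _ ihf => exact ihf.rfind
  obtain ⟨F, F1, F2, F3⟩ := h1
  have h2 : Partrec fun x : ℕ => (F ((decode (α := List ℕ) x.unpair.1).getD []) x.unpair.2) :=
    F1.comp ((Computable.option_getD (Computable.decode.comp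
      (Computable.fst.comp Computable.unpair)) (Computable.const [])))
      (Computable.snd.comp Computable.unpair)
  obtain ⟨c, hc⟩ := Code.exists_code.mp (Partrec.nat_iff.mp h2)
  refine ⟨c, fun n v => ?_⟩
  rw [F3]
  constructor
  · rintro ⟨k, hk⟩
    refine ⟨k, ini g k, List.prefix_rfl, ?_⟩
    rw [hc]
    simpa using hk
  · rintro ⟨k, τ, hτ, hv⟩
    rw [hc] at hv
    refine ⟨k, F2 _ _ hτ _ _ ?_⟩
    simpa using hv

end Pool.Agent.Helper64.SB
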