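import Pool.Agent.Helper64.SB.Logic

/-!
Ultrapowers: the theorem of Los and countable saturation.
-/

namespace Pool.Agent.Helper64.SB

open Filter

variable {M : Type}

/-- A nonprincipal ultrafilter on `ℕ`. -/
noncomputable abbrev UU : Ultrafilter ℕ := hyperfilter ℕ

/-- The universe of the ultrapower. -/
abbrev UM (M : Type) : Type := Germ (UU : Filter ℕ) M

/-- A representative. -/
noncomputable def rep (a : UM M) : ℕ → M := Quotient.out a

theorem coe_rep (a : UM M) : ((rep a : ℕ → M) : UM M) = a := Quotient.out_eq a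

theorem rep_coe (f : ℕ → M) : ∀ᶠ k in (UU : Filter ℕ), rep (f : UM M) k = f k :=
  Germ.coe_eq.mp (coe_rep (f : UM M))

/-- The ultrapower. -/
noncomputable def US (S : Str M) : Str (UM M) where
  fn f n ts := ((fun k => S.fn f n (fun i => rep (ts i) k) : ℕ → M) : UM M)
  rel r n ts := ∀ᶠ k in (UU : Filter ℕ), S.rel r n (fun i => rep (ts i) k)

theorem eval_US (S : Str M) (v : ℕ → UM M) (t : Tm) :
    t.eval (US S) v = ((fun k => t.eval S (fun i => rep (v i) k) : ℕ → M) : UM M) := by
  induction t with
  | var i => exact (coe_rep (v i)).symm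
  | fn f n ts ih =>
    show ((fun k => S.fn f n (fun i => rep ((ts i).eval (US S) v) k) : ℕ → M) : UM M) = _
    refine Germ.coe_eq.mpr ?_
    have h1 : ∀ᶠ k in (UU : Filter ℕ), ∀ i : Fin n, rep ((ts i).eval (US S) v) k =
        (ts i).eval S (fun j => rep (v j) k) := by
      rw [eventually_all]
      intro i
      rw [ih i]
      exact rep_coe _
    filter_upwards [h1] with k hk
    simp only [Tm.eval]
    congr 1
    funext i
    exact hk i

theorem sat_US (S : Str M) [Nonempty M] (v : ℕ → UM M) (φ : Fm) :
    φ.sat (US S) v ↔ ∀ᶠ k in (UU : Filter ℕ), φ.sat S (fun i => rep (v i) k) := by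
  induction φ generalizing v with
  | eq t u =>
    simp only [Fm.sat]
    rw [eval_US, eval_US, Germ.coe_eq]
    rfl
  | rel r n ts =>
    simp only [Fm.sat]
    show (∀ᶠ k in (UU : Filter ℕ), S.rel r n (fun i => rep ((ts i).eval (US S) v) k)) ↔ _
    have h1 : ∀ᶠ k in (UU : Filter ℕ), ∀ i : Fin n, rep ((ts i).eval (US S) v) k =
        (ts i).eval S (fun j => rep (v j) k) := by
      rw [eventually_all]
      intro i
      rw [eval_US]
      exact rep_coe _
    refine eventually_congr ?_
    filter_upwards [h1] with k hk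
    have : (fun i => rep ((ts i).eval (US S) v) k) = fun i => (ts i).eval S (fun j => rep (v j) k) :=
      funext hk
    rw [this]
  | fls =>
    refine ⟨fun h => absurd h (by simp), fun h => ?_⟩
    obtain ⟨_, hk⟩ := h.exists
    exact hk
  | imp φ ψ ih1 ih2 =>
    simp only [Fm.sat]
    rw [ih1, ih2, Ultrafilter.eventually_imp]
  | all i φ ih =>
    simp only [Fm.sat]
    constructor
    · intro h
      by_contra hcon
      rw [← Ultrafilter.eventually_not] at hcon
      have h2 : ∀ k, ∃ a : M, ¬ (∀ a, φ.sat S (Function.update (fun i => rep (v i) k) i a)) →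
          ¬ φ.sat S (Function.update (fun i => rep (v i) k) i a) := by
        intro k
        by_cases hk : ∀ a, φ.sat S (Function.update (fun i => rep (v i) k) i a)
        · exact ⟨Classical.arbitrary M, fun h => absurd hk h⟩
        · have hk' := hk
          push Not at hk'
          obtain ⟨a, ha⟩ := hk'
          exact ⟨a, fun _ => ha⟩
      choose a ha using h2
      have h3 := (ih (Function.update v i ((a : ℕ → M) : UM M))).mp (h _)
      have h4 : ∀ᶠ k in (UU : Filter ℕ), False := by
        filter_upwards [h3, hcon, rep_coe a] with k hk1 hk2 hk3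
        refine ha k hk2 ?_
        have : (fun j => rep (Function.update v i ((a : ℕ → M) : UM M) j) k) =
            Function.update (fun i => rep (v i) k) i (a k) := by
          funext j
          by_cases hj : j = i
          · subst hj; simp [hk3]
          · simp [Function.update_of_ne hj]
        rw [this] at hk1
        exact hk1
      obtain ⟨_, hk⟩ := h4.exists
      exact hk
    · intro h a
      rw [ih]
      filter_upwards [h] with k hk
      have : (fun j => rep (Function.update v i a j) k) =
          Function.update (fun i => rep (v i) k) i (rep a k) := by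
        funext j
        by_cases hj : j = i
        · subst hj; simp
        · simp [Function.update_of_ne hj]
      rw [this]
      exact hk _

/-- Countable saturation. -/
theorem ultra_sat (S : Str M) [Nonempty M] (φ : ℕ → Fm) (v : ℕ → UM M) (n : ℕ)
    (h : ∀ j, ∃ w : ℕ → UM M, (∀ i < n, w i = v i) ∧ ∀ j' ≤ j, (φ j').sat (US S) w) :
    ∃ w : ℕ → UM M, (∀ i < n, w i = v i) ∧ ∀ j, (φ j).sat (US S) w := by
  classical
  choose w hw1 hw2 using h
  let A : ℕ → ℕ → Prop := fun k j => ∀ j' ≤ j, (φ j').sat S (fun i => rep (w j i) k)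
  have hA : ∀ j, ∀ᶠ k in (UU : Filter ℕ), A k j := by
    intro j
    have : ∀ᶠ k in (UU : Filter ℕ), ∀ j' : Fin (j + 1), (φ j').sat S (fun i => rep (w j i) k) := by
      rw [eventually_all]
      intro j'
      exact (sat_US S (w j) (φ j')).mp (hw2 j j' (by omega))
    filter_upwards [this] with k hk j' hj'
    exact hk ⟨j', by omega⟩
  let J : ℕ → ℕ := fun k => Nat.findGreatest (A k) k
  refine ⟨fun i => ((fun k => rep (w (J k) i) k : ℕ → M) : UM M), ?_, ?_⟩
  · intro i hi
    have : (fun k => rep (w (J k) i) k) = rep (v i) := by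
      funext k
      rw [hw1 _ i hi]
    simp only [this]
    exact coe_rep _
  · intro j
    rw [sat_US]
    have h1 : ∀ᶠ k in (UU : Filter ℕ), j ≤ k := by
      have : ∀ᶠ k in cofinite, j ≤ k := by
        rw [Nat.cofinite_eq_atTop]
        exact eventually_ge_atTop j
      exact (Filter.hyperfilter_le_cofinite) this
    have h2 : ∀ᶠ k in (UU : Filter ℕ), ∀ i : Fin ((φ j).code + 1),
        rep (((fun k => rep (w (J k) i) k : ℕ → M) : UM M)) k = rep (w (J k) i) k := by
      rw [eventually_all]
      intro i
      exact rep_coe _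
    filter_upwards [hA j, h1, h2] with k hk1 hk2 hk3
    have h3 : j ≤ J k := Nat.le_findGreatest hk2 hk1
    have h4 : A k (J k) := Nat.findGreatest_spec hk2 hk1
    refine (Fm.sat_congr fun i hi => ?_).mp (h4 j h3)
    exact (hk3 ⟨i, by have := Fm.free_le hi; omega⟩).symm

theorem infinite_UM [Infinite M] : Infinite (UM M) := by
  refine Infinite.of_injective (fun a : M => ((fun _ => a : ℕ → M) : UM M)) fun a b h => ?_
  have := Germ.coe_eq.mp h
  obtain ⟨_, hk⟩ := this.exists
  exact hk

theorem Th_US (L : Lang) (S : Str M) [Nonempty M] : Th L (US S) = Th L S := by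
  ext e
  constructor
  · rintro ⟨φ, h1, h2, h3, rfl⟩
    refine ⟨φ, h1, h2, fun v => ?_, rfl⟩
    have h4 := (sat_US S _ φ).mp (h3 (fun _ => ((fun _ => Classical.arbitrary M : ℕ → M) : UM M)))
    obtain ⟨k, hk⟩ := h4.exists
    exact (Fm.sat_congr fun i hi => absurd hi (h2 i)).mp hk
  · rintro ⟨φ, h1, h2, h3, rfl⟩
    refine ⟨φ, h1, h2, fun v => ?_, rfl⟩
    rw [sat_US]
    exact Eventually.of_forall fun k => h3 _

end Pool.Agent.Helper64.SB
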