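import Pool.Agent.Helper64.SB.Re

/-!
Generic sequences; a countable chain of good oracles has a good upper bound.
-/

namespace Pool.Agent.Helper64.SB

open Nat.Partrec (Code)
open Encodable

/-- A sequence of conditions which decides every set of a countable family. -/
theorem generic {α : Type} (R : α → α → Prop) (hrefl : ∀ a, R a a)
    (htrans : ∀ a b c, R a b → R b c → R a c) (D : Set (Set α)) (hD : D.Countable) (a0 : α) :
    ∃ q : ℕ → α, q 0 = a0 ∧ (∀ m n, m ≤ n → R (q m) (q n)) ∧
      ∀ S ∈ D, ∃ n, q n ∈ S ∨ ∀ r, R (q n) r → r ∉ S := by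
  classical
  obtain ⟨E, hE⟩ : ∃ E : ℕ → Set α, insert (∅ : Set α) D = Set.range E :=
    (hD.insert ∅).exists_eq_range (Set.insert_nonempty _ _)
  have hstep : ∀ (n : ℕ) (a : α), ∃ b, R a b ∧ (b ∈ E n ∨ ∀ r, R b r → r ∉ E n) := by
    intro n a
    by_cases h : ∃ b, R a b ∧ b ∈ E n
    · obtain ⟨b, h1, h2⟩ := h
      exact ⟨b, h1, Or.inl h2⟩
    · refine ⟨a, hrefl a, Or.inr fun r hr hrE => h ⟨r, hr, hrE⟩⟩
  choose step hs1 hs2 using hstep
  let q : ℕ → α := fun n => Nat.rec a0 (fun n a => step n a) n
  have hq : ∀ n, q (n + 1) = step n (q n) := fun n => rfl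
  refine ⟨q, rfl, ?_, ?_⟩
  · intro m n hmn
    induction hmn with
    | refl => exact hrefl _
    | step h ih => exact htrans _ _ _ ih (by rw [hq]; exact hs1 _ _)
  · intro S hS
    have : S ∈ Set.range E := by rw [← hE]; exact Set.mem_insert_of_mem _ hS
    obtain ⟨n, rfl⟩ := this
    exact ⟨n + 1, by rw [hq]; exact hs2 n (q n)⟩

/-- The column of a symbol. -/
def col (a : ℕ) : ℕ := a.unpair.1

/-- The position of a symbol. -/
def pos (a : ℕ) : ℕ := a.unpair.2.unpair.1

/-- The value of a symbol. -/
def val (a : ℕ) : ℕ := a.unpair.2.unpair.2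

/-- The symbol `(i, x, y)`. -/
def sym (i x y : ℕ) : ℕ := Nat.pair i (Nat.pair x y)

@[simp] theorem col_sym (i x y : ℕ) : col (sym i x y) = i := by simp [col, sym]
@[simp] theorem pos_sym (i x y : ℕ) : pos (sym i x y) = x := by simp [pos, sym]
@[simp] theorem val_sym (i x y : ℕ) : val (sym i x y) = y := by simp [val, sym]

theorem sym_eta (a : ℕ) : sym (col a) (pos a) (val a) = a := by simp [col, pos, val, sym]

/-- Conditions: a finite string of symbols, and the status of finitely many columns (dead, or
committed to some `Z j`). -/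
abbrev Cnd : Type := List ℕ × List (Option ℕ)

/-- A symbol is legal for the given statuses. -/
def legal (Z : ℕ → ℕ → ℕ) (st : List (Option ℕ)) (a : ℕ) : Prop :=
  ∀ s, st[col a]? = some s → ∃ j, s = some j ∧ val a = Z j (pos a)

theorem legal_mono {Z : ℕ → ℕ → ℕ} {st st' : List (Option ℕ)} (h : st <+: st') {a : ℕ}
    (ha : legal Z st' a) : legal Z st a := by
  intro s hs
  apply ha
  obtain ⟨t, rfl⟩ := h
  rw [List.getElem?_append_left]
  · exact hs
  · by_contra hn
    rw [List.getElem?_eq_none (by omega)] at hs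
    cases hs

/-- Extension of conditions. -/
def Ext (Z : ℕ → ℕ → ℕ) (q r : Cnd) : Prop :=
  q.2 <+: r.2 ∧ ∃ d, r.1 = q.1 ++ d ∧ ∀ a ∈ d, legal Z q.2 a

theorem Ext.refl (Z : ℕ → ℕ → ℕ) (q : Cnd) : Ext Z q q :=
  ⟨List.prefix_rfl, [], by simp, by simp⟩

theorem Ext.trans {Z : ℕ → ℕ → ℕ} {q r s : Cnd} (h : Ext Z q r) (h' : Ext Z r s) : Ext Z q s := by
  obtain ⟨h1, d, h2, h3⟩ := h
  obtain ⟨h1', d', h2', h3'⟩ := h'
  refine ⟨h1.trans h1', d ++ d', by rw [h2', h2, List.append_assoc], fun a ha => ?_⟩
  rcases List.mem_append.mp ha with ha | ha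
  · exact h3 a ha
  · exact legal_mono h1 (h3' a ha)

/-- Iterated left projection. -/
def lft (K j z : ℕ) : ℕ := (fun z : ℕ => z.unpair.1)^[K - j] z

/-- Legality, checked with a finite part of `Z K`. -/
def legalR (K : ℕ) (ζ : List ℕ) (st : List (Option ℕ)) (a : ℕ) : Prop :=
  st[col a]? = none ∨ ∃ j, st[col a]? = some (some j) ∧
    ∃ z, ζ[pos a]? = some z ∧ lft K j z = val a

/-- Illegality, checked with a finite part of `Z K`. -/
def illegalR (K : ℕ) (ζ : List ℕ) (st : List (Option ℕ)) (a : ℕ) : Prop :=
  st[col a]? = some none ∨ ∃ j, st[col a]? = some (some j) ∧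
    ∃ z, ζ[pos a]? = some z ∧ lft K j z ≠ val a

theorem iterate_left {Z : ℕ → ℕ → ℕ} (hZ : ∀ j x, Z j x = (Z (j + 1) x).unpair.1) {j K : ℕ}
    (hj : j ≤ K) (x : ℕ) : lft K j (Z K x) = Z j x := by
  unfold lft
  obtain ⟨d, rfl⟩ := Nat.exists_eq_add_of_le hj
  rw [Nat.add_sub_cancel_left]
  clear hj
  induction d with
  | zero => rfl
  | succ d ih =>
    rw [Function.iterate_succ_apply, ← Nat.add_assoc, ← hZ]
    exact ih

section

variable {Z : ℕ → ℕ → ℕ} (hZ : ∀ j x, Z j x = (Z (j + 1) x).unpair.1) {st : List (Option ℕ)} {K : ℕ}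
include hZ

theorem legalR_sound {a k : ℕ} (hK : ∀ j, st[col a]? = some (some j) → j ≤ K)
    (h : legalR K (ini (Z K) k) st a) : legal Z st a := by
  rintro s hs
  rcases h with h | ⟨j, hj, z, hz, he⟩
  · rw [h] at hs; cases hs
  · rw [hj] at hs
    cases hs
    refine ⟨j, rfl, ?_⟩
    rw [getElem?_ini] at hz
    split_ifs at hz with hlt
    cases hz
    rw [iterate_left hZ (hK j hj)] at he
    exact he.symm

theorem illegalR_sound {a k : ℕ} (hK : ∀ j, st[col a]? = some (some j) → j ≤ K)
    (h : illegalR K (ini (Z K) k) st a) : ¬ legal Z st a := by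
  intro hl
  rcases h with h | ⟨j, hj, z, hz, he⟩
  · obtain ⟨j, hj, _⟩ := hl _ h
    cases hj
  · obtain ⟨j', hj', hv⟩ := hl _ hj
    cases hj'
    rw [getElem?_ini] at hz
    split_ifs at hz with hlt
    cases hz
    rw [iterate_left hZ (hK j hj)] at he
    exact he hv.symm

theorem legalR_complete {a k : ℕ} (hK : ∀ j, st[col a]? = some (some j) → j ≤ K)
    (hk : pos a < k) (h : legal Z st a) : legalR K (ini (Z K) k) st a := by
  unfold legalR
  cases hs : st[col a]? with
  | none => exact Or.inl rfl
  | some s =>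
    obtain ⟨j, rfl, hv⟩ := h s hs
    refine Or.inr ⟨j, rfl, Z K (pos a), ?_, ?_⟩
    · rw [getElem?_ini, if_pos hk]
    · rw [iterate_left hZ (hK j hs), hv]

theorem illegalR_complete {a k : ℕ} (hK : ∀ j, st[col a]? = some (some j) → j ≤ K)
    (hk : pos a < k) (h : ¬ legal Z st a) : illegalR K (ini (Z K) k) st a := by
  unfold legal at h
  push Not at h
  obtain ⟨s, hs, hne⟩ := h
  cases s with
  | none => exact Or.inl hs
  | some j =>
    refine Or.inr ⟨j, hs, Z K (pos a), ?_, ?_⟩
    · rw [getElem?_ini, if_pos hk]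
    · rw [iterate_left hZ (hK j hs)]
      exact fun he => hne j rfl he.symm

end

theorem computable_col : Computable col := Computable.fst.comp Computable.unpair

theorem computable_pos : Computable pos :=
  (Computable.fst.comp Computable.unpair).comp (Computable.snd.comp Computable.unpair)

theorem computable_val : Computable val :=
  (Computable.snd.comp Computable.unpair).comp (Computable.snd.comp Computable.unpair)

theorem computable_iter (K : ℕ) :
    Computable (fun x : ℕ × ℕ => lft K x.1 x.2) := by
  refine Primrec.to_comp ?_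
  exact Primrec.nat_iterate (h := fun (_ : ℕ × ℕ) (z : ℕ) => z.unpair.1)
    (Primrec.nat_sub.comp (Primrec.const K) Primrec.fst) Primrec.snd
    ((Primrec.fst.comp Primrec.unpair).comp Primrec.snd)

attribute [irreducible] lft

theorem re_status (s : ℕ → Option ℕ) (hs : Computable s) :
    RE (fun x : (List (Option ℕ) × ℕ) × ℕ => x.1.1[col x.1.2]? = some (s x.2)) :=
  RE.eq (Computable.list_getElem?.comp (Computable.fst.comp Computable.fst)
    (computable_col.comp (Computable.snd.comp Computable.fst)))
    (Computable.option_some.comp (hs.comp Computable.snd))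

theorem re_zval (K : ℕ) : RE (fun x : (List ℕ × ℕ × ℕ) × ℕ =>
    x.1.1[pos x.1.2.1]? = some x.2 ∧ lft K x.1.2.2 x.2 = val x.1.2.1) := by
  refine RE.and ?_ ?_
  · exact RE.eq (Computable.list_getElem?.comp (Computable.fst.comp Computable.fst)
      (computable_pos.comp (Computable.fst.comp (Computable.snd.comp Computable.fst))))
      (Computable.option_some.comp Computable.snd)
  · have h1 : Computable (fun x : (List ℕ × ℕ × ℕ) × ℕ => (x.1.2.2, x.2)) :=
      Computable.pair (Computable.snd.comp (Computable.snd.comp Computable.fst)) Computable.snd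
    have h2 : Computable (fun x : (List ℕ × ℕ × ℕ) × ℕ => lft K x.1.2.2 x.2) :=
      (computable_iter K).comp h1
    have h3 : Computable (fun x : (List ℕ × ℕ × ℕ) × ℕ => val x.1.2.1) :=
      computable_val.comp (Computable.fst.comp (Computable.snd.comp Computable.fst))
    exact RE.eq h2 h3

theorem re_zval' (K : ℕ) : RE (fun x : (List ℕ × ℕ × ℕ) × ℕ =>
    x.1.1[pos x.1.2.1]? = some x.2 ∧ lft K x.1.2.2 x.2 ≠ val x.1.2.1) := by
  refine RE.and ?_ ?_
  · exact RE.eq (Computable.list_getElem?.comp (Computable.fst.comp Computable.fst)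
      (computable_pos.comp (Computable.fst.comp (Computable.snd.comp Computable.fst))))
      (Computable.option_some.comp Computable.snd)
  · have h1 : Computable (fun x : (List ℕ × ℕ × ℕ) × ℕ => (x.1.2.2, x.2)) :=
      Computable.pair (Computable.snd.comp (Computable.snd.comp Computable.fst)) Computable.snd
    have h2 : Computable (fun x : (List ℕ × ℕ × ℕ) × ℕ => lft K x.1.2.2 x.2) :=
      (computable_iter K).comp h1
    have h3 : Computable (fun x : (List ℕ × ℕ × ℕ) × ℕ => val x.1.2.1) :=
      computable_val.comp (Computable.fst.comp (Computable.snd.comp Computable.fst))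
    exact RE.ne h2 h3

theorem re_legalR (K : ℕ) :
    RE (fun x : List ℕ × List (Option ℕ) × ℕ => legalR K x.1 x.2.1 x.2.2) := by
  unfold legalR
  refine RE.or ?_ ?_
  · exact RE.eq (Computable.list_getElem?.comp (Computable.fst.comp Computable.snd)
      (computable_col.comp (Computable.snd.comp Computable.snd))) (Computable.const none)
  · refine RE.ex (p := fun (x : List ℕ × List (Option ℕ) × ℕ) (j : ℕ) =>
      x.2.1[col x.2.2]? = some (some j) ∧ ∃ z, x.1[pos x.2.2]? = some z ∧
        lft K j z = val x.2.2) (RE.and ?_ ?_)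
    · exact (re_status (fun j => some j) Computable.option_some).comp
        (f := fun x : (List ℕ × List (Option ℕ) × ℕ) × ℕ => ((x.1.2.1, x.1.2.2), x.2))
        (Computable.pair (Computable.snd.comp Computable.fst) Computable.snd)
    · refine RE.ex (p := fun (x : (List ℕ × List (Option ℕ) × ℕ) × ℕ) (z : ℕ) =>
        x.1.1[pos x.1.2.2]? = some z ∧ lft K x.2 z = val x.1.2.2) ?_
      exact (re_zval K).comp (f := fun y : ((List ℕ × List (Option ℕ) × ℕ) × ℕ) × ℕ =>
        ((y.1.1.1, y.1.1.2.2, y.1.2), y.2))
        (Computable.pair (Computable.pair (Computable.fst.comp (Computable.fst.comp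
          Computable.fst)) (Computable.pair (Computable.snd.comp (Computable.snd.comp
          (Computable.fst.comp Computable.fst))) (Computable.snd.comp Computable.fst)))
          Computable.snd)

theorem re_illegalR (K : ℕ) :
    RE (fun x : List ℕ × List (Option ℕ) × ℕ => illegalR K x.1 x.2.1 x.2.2) := by
  unfold illegalR
  refine RE.or ?_ ?_
  · exact RE.eq (Computable.list_getElem?.comp (Computable.fst.comp Computable.snd)
      (computable_col.comp (Computable.snd.comp Computable.snd))) (Computable.const (some none))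
  · refine RE.ex (p := fun (x : List ℕ × List (Option ℕ) × ℕ) (j : ℕ) =>
      x.2.1[col x.2.2]? = some (some j) ∧ ∃ z, x.1[pos x.2.2]? = some z ∧
        lft K j z ≠ val x.2.2) (RE.and ?_ ?_)
    · exact (re_status (fun j => some j) Computable.option_some).comp
        (f := fun x : (List ℕ × List (Option ℕ) × ℕ) × ℕ => ((x.1.2.1, x.1.2.2), x.2))
        (Computable.pair (Computable.snd.comp Computable.fst) Computable.snd)
    · refine RE.ex (p := fun (x : (List ℕ × List (Option ℕ) × ℕ) × ℕ) (z : ℕ) =>
        x.1.1[pos x.1.2.2]? = some z ∧ lft K x.2 z ≠ val x.1.2.2) ?_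
      exact (re_zval' K).comp (f := fun y : ((List ℕ × List (Option ℕ) × ℕ) × ℕ) × ℕ =>
        ((y.1.1.1, y.1.1.2.2, y.1.2), y.2))
        (Computable.pair (Computable.pair (Computable.fst.comp (Computable.fst.comp
          Computable.fst)) (Computable.pair (Computable.snd.comp (Computable.snd.comp
          (Computable.fst.comp Computable.fst))) (Computable.snd.comp Computable.fst)))
          Computable.snd)

/-- Finitely many symbols are checked with a single initial segment. -/
theorem exists_bound (δ : List ℕ) : ∃ k, ∀ a ∈ δ, pos a < k := by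
  induction δ with
  | nil => exact ⟨0, by simp⟩
  | cons a δ ih =>
    obtain ⟨k, hk⟩ := ih
    refine ⟨max k (pos a + 1), fun b hb => ?_⟩
    rcases List.mem_cons.mp hb with rfl | hb
    · omega
    · have := hk b hb
      omega

theorem exists_K (st : List (Option ℕ)) : ∃ K, ∀ j, some j ∈ st → j ≤ K := by
  induction st with
  | nil => exact ⟨0, by simp⟩
  | cons s st ih =>
    obtain ⟨K, hK⟩ := ih
    refine ⟨max K (s.getD 0), fun j hj => ?_⟩
    rcases List.mem_cons.mp hj with rfl | hj
    · simp
    · have := hK j hj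
      omega

/-- The statuses padded with dead columns. -/
def padst (st : List (Option ℕ)) (B : ℕ) : List (Option ℕ) := st ++ List.replicate (B - st.length) none

theorem mem_padst {st : List (Option ℕ)} {B j : ℕ} (h : some j ∈ padst st B) : some j ∈ st := by
  unfold padst at h
  rcases List.mem_append.mp h with h | h
  · exact h
  · have := List.eq_of_mem_replicate h
    cases this

end Pool.Agent.Helper64.SB
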