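import Pool.Agent.Helper64.SB.Upper

/-!
The upper bound lemma.
-/

namespace Pool.Agent.Helper64.SB

open Nat.Partrec (Code)
open Encodable

/-- The condition forces that the functional is total. -/
def Tot (Z : ℕ → ℕ → ℕ) (c : Code) (q : Cnd) : Prop :=
  ∀ r, Ext Z q r → ∀ m, ∃ s, Ext Z r s ∧ ∃ v, Conv c s.1 m v

/-- The index of a family member. -/
def dec2 (x : ℕ) : List ℕ × ℕ := (decode (α := List ℕ × ℕ) x.unpair.1).getD ([], 0)

theorem computable_dec2 : Computable dec2 :=
  Computable.option_getD (Computable.decode.comp (Computable.fst.comp Computable.unpair))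
    (Computable.const ([], 0))

/-- The value part of a witness. -/
def valOf (e : ℕ) : ℕ := ((decode (α := List ℕ × ℕ) e).getD ([], 0)).2

theorem computable_valOf : Computable valOf :=
  Computable.snd.comp (Computable.option_getD Computable.decode (Computable.const ([], 0)))

@[simp] theorem valOf_encode (x : List ℕ × ℕ) : valOf (encode x) = x.2 := by
  unfold valOf
  rw [Encodable.encodek]
  rfl

theorem legal_of_padst {Z : ℕ → ℕ → ℕ} {st st' : List (Option ℕ)} (h : st <+: st') {a : ℕ}
    (ha : legal Z (padst st st'.length) a) : legal Z st' a := by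
  intro s hs
  have hlt : col a < st'.length := by
    by_contra hn
    rw [List.getElem?_eq_none (by omega)] at hs
    cases hs
  by_cases hc : col a < st.length
  · apply ha
    unfold padst
    rw [List.getElem?_append_left hc]
    obtain ⟨t, rfl⟩ := h
    rw [List.getElem?_append_left hc] at hs
    exact hs
  · obtain ⟨j, hj, _⟩ := ha none (by
      unfold padst
      rw [List.getElem?_append_right (by omega), List.getElem?_replicate]
      rw [if_pos (by omega)])
    cases hj

theorem re_mem_legalR (K : ℕ) {α : Type} [Primcodable α] {f : α → List ℕ}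
    {g : α → List (Option ℕ)} {l : α → List ℕ} (hf : Computable f) (hg : Computable g)
    (hl : Computable l) : RE (fun x => ∀ a ∈ l x, legalR K (f x) (g x) a) := by
  refine RE.forall_mem (p := fun x a => legalR K (f x) (g x) a) ?_ hl
  exact (re_legalR K).comp (f := fun y : α × ℕ => (f y.1, g y.1, y.2))
    (Computable.pair (hf.comp Computable.fst)
      (Computable.pair (hg.comp Computable.fst) Computable.snd))

theorem re_mem_illegalR (K : ℕ) {α : Type} [Primcodable α] {f : α → List ℕ}
    {g : α → List (Option ℕ)} {l : α → List ℕ} (hf : Computable f) (hg : Computable g)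
    (hl : Computable l) : RE (fun x => ∃ a ∈ l x, illegalR K (f x) (g x) a) := by
  refine RE.exists_mem (p := fun x a => illegalR K (f x) (g x) a) ?_ hl
  exact (re_illegalR K).comp (f := fun y : α × ℕ => (f y.1, g y.1, y.2))
    (Computable.pair (hf.comp Computable.fst)
      (Computable.pair (hg.comp Computable.fst) Computable.snd))

theorem computable_padst (st : List (Option ℕ)) : Computable (padst st) := by
  unfold padst
  refine Computable.list_append.comp (Computable.const st) ?_
  have h1 : Computable (fun n : ℕ => (List.range n).map (fun _ => (none : Option ℕ))) :=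
    (Primrec.list_map Primrec.list_range (Primrec.const none).to₂).to_comp
  have h2 : Computable (fun B : ℕ => B - st.length) :=
    (Primrec.nat_sub.comp Primrec.id (Primrec.const _)).to_comp
  refine (h1.comp h2).of_eq fun B => ?_
  simp [List.map_const']

section

variable {Z : ℕ → ℕ → ℕ} (hZ : ∀ j x, Z j x = (Z (j + 1) x).unpair.1) {c : Code} {q : Cnd} {K : ℕ}
include hZ

theorem tot_bound (hq : Tot Z c q) (hg : NonHigh (Z K)) (hK : ∀ j, some j ∈ q.2 → j ≤ K) :
    ∃ f : ℕ → ℕ, Computable f ∧ ∀ r, Ext Z q r → ∀ N, ∃ m ≥ N, ∃ s, Ext Z r s ∧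
      ∃ v, Conv c s.1 m v ∧ v < f m := by
  have hK1 : ∀ a j, q.2[col a]? = some (some j) → j ≤ K := fun a j h =>
    hK j (List.mem_of_getElem? h)
  have hK2 : ∀ B a j, (padst q.2 B)[col a]? = some (some j) → j ≤ K := fun B a j h =>
    hK j (mem_padst (List.mem_of_getElem? h))
  obtain ⟨h, hh, hR⟩ := search_re (g := Z K) (β := List ℕ × ℕ)
    (R := fun ζ x b => (∃ a ∈ (dec2 x).1, illegalR K ζ q.2 a) ∨
      ((∀ a ∈ b.1, legalR K ζ (padst q.2 (dec2 x).2) a) ∧
        Conv c (q.1 ++ (dec2 x).1 ++ b.1) x.unpair.2 b.2)) (by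
      have hd : Computable (fun x : List ℕ × ℕ × List ℕ × ℕ => dec2 x.2.1) :=
        computable_dec2.comp (Computable.fst.comp Computable.snd)
      have hb1 : Computable (fun x : List ℕ × ℕ × List ℕ × ℕ => x.2.2.1) :=
        Computable.fst.comp (Computable.snd.comp Computable.snd)
      refine RE.or (re_mem_illegalR K Computable.fst (Computable.const _)
        (Computable.fst.comp hd)) (RE.and ?_ ?_)
      · exact re_mem_legalR K Computable.fst ((computable_padst q.2).comp
          (Computable.snd.comp hd)) hb1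
      · refine (RE.of_conv c).comp (f := fun x : List ℕ × ℕ × List ℕ × ℕ =>
          (q.1 ++ (dec2 x.2.1).1 ++ x.2.2.1, x.2.1.unpair.2, x.2.2.2)) ?_
        refine Computable.pair ?_ (Computable.pair ?_ ?_)
        · exact Computable.list_append.comp (Computable.list_append.comp (Computable.const _)
            (Computable.fst.comp hd)) hb1
        · exact (Computable.snd.comp Computable.unpair).comp
            (Computable.fst.comp Computable.snd)
        · exact Computable.snd.comp (Computable.snd.comp Computable.snd)) (by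
      intro x
      by_cases hl : ∀ a ∈ (dec2 x).1, legal Z q.2 a
      · obtain ⟨s, ⟨hs1, d, hs2, hs3⟩, v, hv⟩ := hq (q.1 ++ (dec2 x).1, padst q.2 (dec2 x).2)
          ⟨List.prefix_append _ _, _, rfl, hl⟩ x.unpair.2
        obtain ⟨k, hk⟩ := exists_bound d
        refine ⟨k, (d, v), Or.inr ⟨fun a ha => ?_, ?_⟩⟩
        · exact legalR_complete hZ (hK2 _ a) (hk a ha) (hs3 a ha)
        · rw [hs2] at hv
          exact hv
      · push Not at hl
        obtain ⟨a, ha, hal⟩ := hl
        exact ⟨pos a + 1, ([], 0), Or.inl ⟨a, ha, illegalR_complete hZ (hK1 a)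
          (Nat.lt_succ_self _) hal⟩⟩)
  have hv : RecIn (Z K) (fun x => (h x).2) :=
    ((RecIn.of_computable computable_valOf).comp hh).of_eq fun x => by simp
  obtain ⟨f, hf, hfam⟩ := hg.family hv
  refine ⟨f, hf, ?_⟩
  rintro r ⟨hr1, d, hr2, hr3⟩ N
  obtain ⟨n, hn, hlt⟩ := hfam (encode (d, r.2.length)) N
  obtain ⟨k, hk⟩ := hR (Nat.pair (encode (d, r.2.length)) n)
  generalize hhx : h (Nat.pair (encode (d, r.2.length)) n) = b at hlt hk
  have hdec : dec2 (Nat.pair (encode (d, r.2.length)) n) = (d, r.2.length) := by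
    simp [dec2]
  rw [hdec] at hk
  simp only [Nat.unpair_pair] at hk
  rcases hk with ⟨a, ha, hal⟩ | ⟨hk1, hk2⟩
  · exact absurd (hr3 a ha) (illegalR_sound hZ (hK1 a) hal)
  · refine ⟨n, hn, (r.1 ++ b.1, r.2), ⟨List.prefix_rfl, b.1, rfl, fun a ha => ?_⟩, b.2, ?_, hlt⟩
    · exact legal_of_padst hr1 (legalR_sound hZ (hK2 _ a) (hk1 a ha))
    · rw [hr2]
      exact hk2

theorem tot_avoid {B : ℕ → ℕ → Prop} (hq : Tot Z c q) (hg : NonAvoid B (Z K))
    (hK : ∀ j, some j ∈ q.2 → j ≤ K) :
    ∃ r, Ext Z q r ∧ ∃ m v, Conv c r.1 m v ∧ B m v := by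
  have hK1 : ∀ a j, q.2[col a]? = some (some j) → j ≤ K := fun a j h =>
    hK j (List.mem_of_getElem? h)
  obtain ⟨h, hh, hR⟩ := search_re (g := Z K) (β := List ℕ × ℕ)
    (R := fun ζ m b => (∀ a ∈ b.1, legalR K ζ q.2 a) ∧ Conv c (q.1 ++ b.1) m b.2) (by
      have hb1 : Computable (fun x : List ℕ × ℕ × List ℕ × ℕ => x.2.2.1) :=
        Computable.fst.comp (Computable.snd.comp Computable.snd)
      refine RE.and (re_mem_legalR K Computable.fst (Computable.const _) hb1) ?_
      refine (RE.of_conv c).comp (f := fun x : List ℕ × ℕ × List ℕ × ℕ =>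
          (q.1 ++ x.2.2.1, x.2.1, x.2.2.2)) ?_
      exact Computable.pair (Computable.list_append.comp (Computable.const _) hb1)
        (Computable.pair (Computable.fst.comp Computable.snd)
          (Computable.snd.comp (Computable.snd.comp Computable.snd)))) (by
      intro m
      obtain ⟨s, ⟨hs1, d, hs2, hs3⟩, v, hv⟩ := hq q (Ext.refl Z q) m
      obtain ⟨k, hk⟩ := exists_bound d
      refine ⟨k, (d, v), fun a ha => ?_, ?_⟩
      · exact legalR_complete hZ (hK1 a) (hk a ha) (hs3 a ha)
      · rw [hs2] at hv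
        exact hv)
  have hv : RecIn (Z K) (fun x => (h x).2) :=
    ((RecIn.of_computable computable_valOf).comp hh).of_eq fun x => by simp
  obtain ⟨m, hm⟩ := hg _ hv
  obtain ⟨k, hk1, hk2⟩ := hR m
  exact ⟨(q.1 ++ (h m).1, q.2), ⟨List.prefix_rfl, _, rfl, fun a ha =>
    legalR_sound hZ (hK1 a) (hk1 a ha)⟩, m, _, hk2, hm⟩

end

/-- A countable chain of good oracles has a good upper bound. -/
theorem exists_upper {B : ℕ → ℕ → Prop} (Z : ℕ → ℕ → ℕ)
    (hZ : ∀ j x, Z j x = (Z (j + 1) x).unpair.1) (hG : ∀ j, Good B (Z j)) :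
    ∃ X : ℕ → ℕ, Good B X ∧ ∀ j, RecIn X (Z j) := by
  classical
  -- the families of sets of conditions
  let D1 : ℕ → Set Cnd := fun k => {q | k ≤ q.1.length}
  let D2 : ℕ → Set Cnd := fun j => {q | some j ∈ q.2}
  let D3 : ℕ × ℕ × ℕ × ℕ → Set Cnd := fun t =>
    {q | q.2[t.1]? = some (some t.2.1) ∧
      ∃ p ≥ t.2.2.2, q.1[p]? = some (sym t.1 t.2.2.1 (Z t.2.1 t.2.2.1))}
  let D4 : Code × Code × ℕ → Set Cnd := fun t =>
    {q | ∃ m ≥ t.2.2, ∃ v, Conv t.1 q.1 m v ∧ ∃ u ∈ t.2.1.eval m, v < u}
  let D5 : Code → Set Cnd := fun c => {q | ∃ m v, Conv c q.1 m v ∧ B m v}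
  let D6 : Code → Set Cnd := fun c => {q | ∃ m, ∀ r, Ext Z q r → ¬ ∃ v, Conv c r.1 m v}
  obtain ⟨q, hq0, hqmono, hqgen⟩ := generic (Ext Z) (Ext.refl Z)
    (fun a b c h h' => h.trans h')
    (Set.range D1 ∪ Set.range D2 ∪ Set.range D3 ∪ Set.range D4 ∪ Set.range D5 ∪ Set.range D6)
    (((((Set.countable_range D1).union (Set.countable_range D2)).union
      (Set.countable_range D3)).union (Set.countable_range D4)).union
      (Set.countable_range D5) |>.union (Set.countable_range D6)) ([], [])
  have g1 : ∀ k, ∃ n, q n ∈ D1 k ∨ ∀ r, Ext Z (q n) r → r ∉ D1 k := fun k =>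
    hqgen _ (by left; left; left; left; left; exact ⟨k, rfl⟩)
  have g2 : ∀ k, ∃ n, q n ∈ D2 k ∨ ∀ r, Ext Z (q n) r → r ∉ D2 k := fun k =>
    hqgen _ (by left; left; left; left; right; exact ⟨k, rfl⟩)
  have g3 : ∀ k, ∃ n, q n ∈ D3 k ∨ ∀ r, Ext Z (q n) r → r ∉ D3 k := fun k =>
    hqgen _ (by left; left; left; right; exact ⟨k, rfl⟩)
  have g4 : ∀ k, ∃ n, q n ∈ D4 k ∨ ∀ r, Ext Z (q n) r → r ∉ D4 k := fun k =>
    hqgen _ (by left; left; right; exact ⟨k, rfl⟩)
  have g5 : ∀ k, ∃ n, q n ∈ D5 k ∨ ∀ r, Ext Z (q n) r → r ∉ D5 k := fun k =>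
    hqgen _ (by left; right; exact ⟨k, rfl⟩)
  have g6 : ∀ k, ∃ n, q n ∈ D6 k ∨ ∀ r, Ext Z (q n) r → r ∉ D6 k := fun k =>
    hqgen _ (by right; exact ⟨k, rfl⟩)
  -- lengths tend to infinity
  have hlen : ∀ k, ∃ n, k ≤ (q n).1.length := by
    intro k
    obtain ⟨n, hn | hn⟩ := g1 k
    · exact ⟨n, hn⟩
    · exfalso
      -- extend by symbols of a fresh column
      refine hn ((q n).1 ++ List.replicate k (sym (q n).2.length 0 0), (q n).2)
        ⟨List.prefix_rfl, _, rfl, fun a ha => ?_⟩ ?_
      · rw [List.eq_of_mem_replicate ha]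
        intro s hs
        rw [col_sym, List.getElem?_eq_none le_rfl] at hs
        cases hs
      · show k ≤ _
        simp
  have hpre : ∀ m n, m ≤ n → (q m).1 <+: (q n).1 := by
    intro m n hmn
    obtain ⟨_, d, hd, _⟩ := hqmono m n hmn
    exact ⟨d, hd.symm⟩
  -- the generic stream
  choose ν hν using hlen
  let X : ℕ → ℕ := fun p => ((q (ν (p + 1))).1[p]?).getD 0
  have hXget : ∀ n p, p < (q n).1.length → (q n).1[p]? = some (X p) := by
    intro n p hp
    have h1 : p < (q (ν (p + 1))).1.length := hν (p + 1)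
    have h2 : (q (ν (p + 1))).1[p]? = some (X p) := by
      show _ = some (((q (ν (p + 1))).1[p]?).getD 0)
      rw [List.getElem?_eq_getElem h1]
      rfl
    have h3 : (q n).1[p]? = some ((q n).1[p]) := List.getElem?_eq_getElem hp
    rcases le_total n (ν (p + 1)) with h | h
    · have h4 := prefix_getElem? (hpre _ _ h) h3
      rw [h2] at h4
      rw [h3, h4]
    · exact prefix_getElem? (hpre _ _ h) h2
  have hXini : ∀ n, (q n).1 = ini X (q n).1.length := by
    intro n
    apply List.ext_getElem?
    intro p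
    rw [getElem?_ini]
    split_ifs with hp
    · exact hXget n p hp
    · exact List.getElem?_eq_none (by omega)
  -- computations with oracle `X`
  have hconv1 : ∀ c k m v, Conv c (ini X k) m v → ∀ n, k ≤ (q n).1.length → Conv c (q n).1 m v := by
    intro c k m v h n hn
    rw [hXini n]
    exact h.mono (ini_prefix X hn)
  have hconv2 : ∀ c n m v, Conv c (q n).1 m v → ∃ k, Conv c (ini X k) m v := by
    intro c n m v h
    exact ⟨_, by rw [← hXini n]; exact h⟩
  have htot : ∀ (h : ℕ → ℕ) (c : Code), (∀ n v, v ∈ (h : ℕ →. ℕ) n ↔ ∃ k, Conv c (ini X k) n v) →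
      ∃ n, Tot Z c (q n) := by
    intro h c hc
    obtain ⟨n, hn | hn⟩ := g6 c
    · exfalso
      obtain ⟨m, hm⟩ := hn
      obtain ⟨k, hk⟩ := (hc m (h m)).mp (by simp)
      have h1 : k ≤ (q (max n (ν k))).1.length :=
        (hν k).trans ((hpre _ _ (le_max_right n (ν k))).length_le)
      exact hm _ (hqmono _ _ (le_max_left n (ν k))) ⟨_, hconv1 c k m _ hk _ h1⟩
    · refine ⟨n, fun r hr m => ?_⟩
      by_contra hcon
      push Not at hcon
      refine hn r hr ⟨m, fun s hs => ?_⟩
      rintro ⟨v, hv⟩
      exact hcon s hs v hv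
  refine ⟨X, ⟨?_, ?_⟩, ?_⟩
  · -- not high
    intro h hh
    obtain ⟨c, hc⟩ := normal_form hh
    obtain ⟨n, hn⟩ := htot h c hc
    obtain ⟨K, hK⟩ := exists_K (q n).2
    obtain ⟨f, hf, hfb⟩ := tot_bound hZ hn (hG K).nonHigh hK
    obtain ⟨e, he⟩ := Code.exists_code.mp (Partrec.nat_iff.mp hf)
    refine ⟨f, hf, fun N => ?_⟩
    obtain ⟨n', hn' | hn'⟩ := g4 (c, e, N)
    · obtain ⟨m, hm, v, hv, u, hu, hlt⟩ := hn'
      rw [he] at hu
      obtain rfl : u = f m := by simpa using hu
      obtain ⟨k, hk⟩ := hconv2 _ _ _ _ hv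
      have := (hc m v).mpr ⟨k, hk⟩
      obtain rfl : v = h m := by simpa using this
      exact ⟨m, hm, hlt⟩
    · exfalso
      obtain ⟨m, hm, s, hs, v, hv, hlt⟩ := hfb (q (max n n')) (hqmono _ _ (le_max_left n n')) N
      exact hn' s ((hqmono _ _ (le_max_right n n')).trans hs) ⟨m, hm, v, hv, f m,
        by rw [he]; simp, hlt⟩
  · -- not avoiding
    intro h hh
    obtain ⟨c, hc⟩ := normal_form hh
    obtain ⟨n, hn⟩ := htot h c hc
    obtain ⟨n', hn' | hn'⟩ := g5 c
    · obtain ⟨m, v, hv, hB⟩ := hn'
      obtain ⟨k, hk⟩ := hconv2 _ _ _ _ hv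
      have := (hc m v).mpr ⟨k, hk⟩
      obtain rfl : v = h m := by simpa using this
      exact ⟨m, hB⟩
    · exfalso
      have hn2 : Tot Z c (q (max n n')) := fun r hr =>
        hn r ((hqmono _ _ (le_max_left n n')).trans hr)
      obtain ⟨K, hK⟩ := exists_K (q (max n n')).2
      obtain ⟨r, hr, m, v, hv, hB⟩ := tot_avoid hZ hn2 (hG K).nonAvoid hK
      exact hn' r ((hqmono _ _ (le_max_right n n')).trans hr) ⟨m, v, hv, hB⟩
  · -- upper bound
    intro j
    obtain ⟨n, hn⟩ : ∃ n, some j ∈ (q n).2 := by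
      obtain ⟨n, hn | hn⟩ := g2 j
      · exact ⟨n, hn⟩
      · exfalso
        exact hn ((q n).1, (q n).2 ++ [some j]) ⟨List.prefix_append _ _, [], by simp, by simp⟩
          (by show some j ∈ (q n).2 ++ [some j]; simp)
    obtain ⟨i, hi, hij⟩ := List.getElem_of_mem hn
    have hst : ∀ n', n ≤ n' → (q n').2[i]? = some (some j) := by
      intro n' hnn
      obtain ⟨t, ht⟩ := (hqmono n n' hnn).1
      rw [← ht, List.getElem?_append_left hi, List.getElem?_eq_getElem hi, hij]
    set s0 := (q n).1.length with hs0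
    -- all later symbols in column `i` are correct
    have hcor : ∀ p, s0 ≤ p → col (X p) = i → val (X p) = Z j (pos (X p)) := by
      intro p hp hcol
      have h1 : p < (q (max n (ν (p + 1)))).1.length :=
        lt_of_lt_of_le (hν (p + 1)) ((hpre _ _ (le_max_right n _)).length_le)
      obtain ⟨_, d, hd, hleg⟩ := hqmono n (max n (ν (p + 1))) (le_max_left _ _)
      have h2 := hXget _ _ h1
      rw [hd, List.getElem?_append_right hp] at h2
      have h3 := hleg _ (List.mem_of_getElem? h2) (some j) (by rw [hcol]; exact hst n le_rfl)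
      obtain ⟨j', hj', hv⟩ := h3
      cases hj'
      exact hv
    -- each symbol appears
    have happ : ∀ x, ∃ p, s0 ≤ p ∧ col (X p) = i ∧ pos (X p) = x := by
      intro x
      obtain ⟨n', hn' | hn'⟩ := g3 (i, j, x, s0)
      · obtain ⟨_, p, hp, hsym⟩ := hn'
        have hlt : p < (q n').1.length := by
          by_contra hcon
          rw [List.getElem?_eq_none (by omega)] at hsym
          cases hsym
        rw [hXget _ _ hlt] at hsym
        have := Option.some.inj hsym
        exact ⟨p, hp, by rw [this]; simp, by rw [this]; simp⟩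
      · exfalso
        set N := max n n' with hN
        have hle : s0 ≤ (q N).1.length := (hpre _ _ (le_max_left n n')).length_le
        refine hn' ((q N).1 ++ [sym i x (Z j x)], (q N).2)
          ((hqmono _ _ (le_max_right n n')).trans ⟨List.prefix_rfl, _, rfl, ?_⟩) ⟨?_, ?_⟩
        · intro a ha
          rw [List.mem_singleton] at ha
          subst ha
          intro s hs
          rw [col_sym, hst N (le_max_left n n')] at hs
          cases hs
          exact ⟨j, rfl, by simp⟩
        · exact hst N (le_max_left n n')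
        · refine ⟨(q N).1.length, hle, ?_⟩
          simp
    -- the search
    have hp : RecIn X (fun z => cond (decide (col (X (s0 + z.unpair.2)) = i) &&
        decide (pos (X (s0 + z.unpair.2)) = z.unpair.1)) 0 1) := by
      have h1 : Computable₂ (fun (a x : ℕ) => cond (decide (col a = i) && decide (pos a = x)) 0 1) := by
        refine Computable.cond (Primrec.and.to_comp.comp ?_ ?_) (Computable.const _)
          (Computable.const _)
        · exact (Primrec.eq (α := ℕ)).decide.to_comp.comp (computable_col.comp Computable.fst)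
            (Computable.const i)
        · exact (Primrec.eq (α := ℕ)).decide.to_comp.comp (computable_pos.comp Computable.fst)
            Computable.snd
      refine RecIn.comp₂ h1 ((RecIn.refl X).comp ?_) ?_
      · exact RecIn.of_computable ((Primrec.nat_add.to_comp.comp (Computable.const s0)
          (Computable.snd.comp Computable.unpair)))
      · exact RecIn.of_computable (Computable.fst.comp Computable.unpair)
    obtain ⟨w, hw, hwp⟩ := hp.find (by
      intro x
      obtain ⟨p, hp1, hp2, hp3⟩ := happ x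
      refine ⟨p - s0, ?_⟩
      have : s0 + (p - s0) = p := by omega
      simp [this, hp2, hp3])
    have h2 : RecIn X (fun x => val (X (s0 + w x))) :=
      (RecIn.of_computable computable_val).comp ((RecIn.refl X).comp
        ((RecIn.of_computable (Primrec.nat_add.to_comp.comp (Computable.const s0)
          Computable.id)).comp hw))
    refine h2.of_eq fun x => ?_
    have h3 := hwp x
    simp only [Nat.unpair_pair] at h3
    have h4 : col (X (s0 + w x)) = i ∧ pos (X (s0 + w x)) = x := by
      by_contra hcon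
      have : (decide (col (X (s0 + w x)) = i) && decide (pos (X (s0 + w x)) = x)) = false := by
        rw [Bool.and_eq_false_iff, decide_eq_false_iff_not, decide_eq_false_iff_not]
        tauto
      rw [this] at h3
      simp at h3
    rw [hcor _ (by omega) h4.1, h4.2]

end Pool.Agent.Helper64.SB
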